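import Mathlib

set_option autoImplicit false

open Finset
open scoped Pointwise

namespace H2CS

variable {V : Type} [AddCommGroup V] [Module (ZMod 2) V] [Fintype V] [DecidableEq V]

omit [Fintype V] [DecidableEq V] in
lemma add_self' (x : V) : x + x = 0 := ZModModule.add_self x

omit [Fintype V] [DecidableEq V] in
lemma add_add_cancel' (x y : V) : x + (x + y) = y := by
  rw [← add_assoc, add_self', zero_add]

omit [Fintype V] [DecidableEq V] in
lemma eq_add_iff (x y s : V) : x + y = s ↔ y = x + s := by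
  constructor
  · rintro rfl; rw [add_add_cancel']
  · rintro rfl; rw [add_add_cancel']

/-- Number of representations. -/
def rr (X : Finset V) (s : V) : ℕ := #(X.filter (fun x => x + s ∈ X))

omit [Fintype V] in
lemma rr_le (X : Finset V) (s : V) : rr X s ≤ #X := Finset.card_filter_le _ _

lemma pairs_eq (X : Finset V) (P : V → Prop) [DecidablePred P] :
    #((X ×ˢ X).filter (fun p => P (p.1 + p.2))) = ∑ s ∈ univ.filter P, rr X s := by
  rw [Finset.card_eq_sum_card_fiberwise (f := fun p : V × V => p.1 + p.2) (t := univ.filter P)]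
  · refine Finset.sum_congr rfl fun s hs => ?_
    unfold rr
    refine Finset.card_bij' (fun p _ => p.1) (fun x _ => (x, x + s)) ?_ ?_ ?_ ?_
    · rintro ⟨x, y⟩ h
      simp only [Finset.mem_filter, Finset.mem_product] at h ⊢
      obtain ⟨⟨⟨hx, hy⟩, _⟩, rfl⟩ := h
      exact ⟨hx, by rwa [add_add_cancel']⟩
    · intro x h
      simp only [Finset.mem_filter, Finset.mem_product, Finset.mem_univ, true_and] at h hs ⊢
      exact ⟨⟨⟨h.1, h.2⟩, by rwa [add_add_cancel']⟩, add_add_cancel' _ _⟩
    · rintro ⟨x, y⟩ h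
      simp only [Finset.mem_filter, Finset.mem_product] at h
      obtain ⟨⟨⟨hx, hy⟩, _⟩, rfl⟩ := h
      simp [add_add_cancel']
    · intro x h; rfl
  · intro p hp
    simp only [Finset.coe_filter, Finset.mem_product, Set.mem_ofPred_eq] at hp
    simp only [Finset.coe_filter, Finset.mem_univ, true_and, Set.mem_ofPred_eq]
    exact hp.2

lemma sum_rr (X : Finset V) : ∑ s, rr X s = #X * #X := by
  have h := pairs_eq X (fun _ => True)
  simp only [Finset.filter_true, Finset.card_product] at h
  exact h.symm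

/-! ### Sums over tuples -/

omit [AddCommGroup V] [Module (ZMod 2) V] [Fintype V] in
lemma prod_tuples {z : ℕ} (X : Finset V) (F : Fin z → V → ℝ) :
    ∑ w ∈ Fintype.piFinset (fun _ : Fin z => X), ∏ l, F l (w l) = ∏ l, ∑ x ∈ X, F l x :=
  (Finset.prod_univ_sum (fun _ : Fin z => X) F).symm

omit [AddCommGroup V] [Module (ZMod 2) V] [Fintype V] in
lemma iid_coord {z : ℕ} (X : Finset V) (hX : X.Nonempty) (h : V → ℝ) (i : Fin z) :
    ∑ w ∈ Fintype.piFinset (fun _ : Fin z => X), h (w i) =
      (#X : ℝ) ^ z * ((∑ x ∈ X, h x) / #X) := by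
  have hk : (#X : ℝ) ≠ 0 := by exact_mod_cast hX.card_pos.ne'
  have h1 := prod_tuples X (fun l x => if l = i then h x else 1)
  have h2 : ∀ w : Fin z → V, ∏ l, (if l = i then h (w l) else 1) = h (w i) := by
    intro w
    rw [Finset.prod_ite_eq' Finset.univ i (fun l => h (w l))]
    simp
  simp only [h2] at h1
  rw [h1]
  have h3 : ∀ l : Fin z, ∑ x ∈ X, (if l = i then h x else 1) =
      (#X : ℝ) * (if l = i then (∑ x ∈ X, h x) / #X else 1) := by
    intro l
    by_cases hl : l = i
    · simp only [hl, if_true]; field_simp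
    · simp only [hl, if_false, Finset.sum_const, nsmul_eq_mul]
  simp only [h3]
  rw [Finset.prod_mul_distrib, Finset.prod_const, Finset.card_univ, Fintype.card_fin,
    Finset.prod_ite_eq' Finset.univ i]
  simp

omit [AddCommGroup V] [Module (ZMod 2) V] [Fintype V] in
lemma iid_coord2 {z : ℕ} (X : Finset V) (hX : X.Nonempty) (h : V → ℝ) (i j : Fin z) (hij : i ≠ j) :
    ∑ w ∈ Fintype.piFinset (fun _ : Fin z => X), h (w i) * h (w j) =
      (#X : ℝ) ^ z * ((∑ x ∈ X, h x) / #X) ^ 2 := by
  have hk : (#X : ℝ) ≠ 0 := by exact_mod_cast hX.card_pos.ne'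
  have h1 := prod_tuples X (fun l x => (if l = i then h x else 1) * (if l = j then h x else 1))
  have h2 : ∀ w : Fin z → V, ∏ l, ((if l = i then h (w l) else 1) * (if l = j then h (w l) else 1)) =
      h (w i) * h (w j) := by
    intro w
    rw [Finset.prod_mul_distrib, Finset.prod_ite_eq' Finset.univ i (fun l => h (w l)),
      Finset.prod_ite_eq' Finset.univ j (fun l => h (w l))]
    simp
  simp only [h2] at h1
  rw [h1]
  have h3 : ∀ l : Fin z, ∑ x ∈ X, ((if l = i then h x else 1) * (if l = j then h x else 1)) =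
      (#X : ℝ) * ((if l = i then (∑ x ∈ X, h x) / #X else 1) *
        (if l = j then (∑ x ∈ X, h x) / #X else 1)) := by
    intro l
    by_cases hl : l = i
    · have hlj : l ≠ j := by rw [hl]; exact hij
      simp only [hl, if_true]
      rw [if_neg hij]
      simp only [mul_one, if_neg hij]
      field_simp
    · by_cases hlj : l = j
      · simp only [hlj, if_true, if_neg (Ne.symm hij), one_mul]
        field_simp
      · simp only [hl, hlj, if_false, Finset.sum_const, nsmul_eq_mul, mul_one]
  simp only [h3]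
  rw [Finset.prod_mul_distrib, Finset.prod_const, Finset.card_univ, Fintype.card_fin,
    Finset.prod_mul_distrib, Finset.prod_ite_eq' Finset.univ i, Finset.prod_ite_eq' Finset.univ j]
  simp [sq]

omit [AddCommGroup V] [Module (ZMod 2) V] [Fintype V] in
lemma iid_one {z : ℕ} (X : Finset V) (hX : X.Nonempty) (h : V → ℝ) :
    ∑ w ∈ Fintype.piFinset (fun _ : Fin z => X), ∑ i, h (w i) =
      (#X : ℝ) ^ z * (z * ((∑ x ∈ X, h x) / #X)) := by
  rw [Finset.sum_comm]
  simp only [iid_coord X hX h]
  rw [Finset.sum_const, Finset.card_univ, Fintype.card_fin, nsmul_eq_mul]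
  ring

omit [AddCommGroup V] [Module (ZMod 2) V] [Fintype V] in
lemma iid_two {z : ℕ} (X : Finset V) (hX : X.Nonempty) (h : V → ℝ) :
    ∑ w ∈ Fintype.piFinset (fun _ : Fin z => X), (∑ i, h (w i)) ^ 2 ≤
      (#X : ℝ) ^ z * (z * ((∑ x ∈ X, h x ^ 2) / #X) + z ^ 2 * ((∑ x ∈ X, h x) / #X) ^ 2) := by
  have h1 : ∀ w : Fin z → V, (∑ i, h (w i)) ^ 2 = ∑ i, ∑ j, h (w i) * h (w j) := by
    intro w
    rw [sq, Finset.sum_mul_sum]
  simp only [h1]
  rw [Finset.sum_comm]
  have h2 : ∀ i : Fin z, ∑ w ∈ Fintype.piFinset (fun _ : Fin z => X), ∑ j, h (w i) * h (w j) ≤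
      ∑ j, (#X : ℝ) ^ z * ((if i = j then (∑ x ∈ X, h x ^ 2) / #X else 0) +
        ((∑ x ∈ X, h x) / #X) ^ 2) := by
    intro i
    rw [Finset.sum_comm]
    refine Finset.sum_le_sum fun j _ => ?_
    by_cases hij : i = j
    · subst hij
      have e1 : ∑ w ∈ Fintype.piFinset (fun _ : Fin z => X), h (w i) * h (w i) =
          (#X : ℝ) ^ z * ((∑ x ∈ X, h x ^ 2) / #X) := by
        have := iid_coord X hX (fun x => h x ^ 2) i
        simp only [sq] at this ⊢
        exact this
      rw [e1, if_pos rfl]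
      exact mul_le_mul_of_nonneg_left (by nlinarith [sq_nonneg ((∑ x ∈ X, h x) / #X)]) (by positivity)
    · rw [iid_coord2 X hX h i j hij, if_neg hij, zero_add]
  refine (Finset.sum_le_sum fun i _ => h2 i).trans (le_of_eq ?_)
  simp only [← Finset.mul_sum, Finset.sum_add_distrib, Finset.sum_ite_eq, Finset.mem_univ, if_true,
    Finset.sum_const, Finset.card_univ, Fintype.card_fin, nsmul_eq_mul]
  ring

end H2CS
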