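import Mathlib
import Pool.Agent.H2CS.Basic

set_option autoImplicit false
set_option linter.unusedSectionVars false

open Finset
open scoped Pointwise

namespace H2CS

variable {V : Type} [AddCommGroup V] [Module (ZMod 2) V] [Fintype V] [DecidableEq V]

/-- Number of representations of `s` in the sample. -/
def Ys {z : ℕ} (s : V) (w w' : Fin z → V) : ℝ := ∑ i, ∑ j, if w i + w' j = s then (1 : ℝ) else 0

/-- The tuples. -/
def tup (X : Finset V) (z : ℕ) : Finset (Fin z → V) := Fintype.piFinset (fun _ : Fin z => X)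

lemma card_tup (X : Finset V) (z : ℕ) : (#(tup X z) : ℝ) = (#X : ℝ) ^ z := by
  unfold tup
  rw [Fintype.card_piFinset_const]
  push_cast
  simp

lemma sum_ind (X : Finset V) (s y : V) :
    ∑ x ∈ X, (if x + y = s then (1 : ℝ) else 0) = if y + s ∈ X then 1 else 0 := by
  have h : ∀ x, (x + y = s) ↔ x = y + s := by
    intro x
    rw [add_comm, eq_add_iff]
  simp only [h, Finset.sum_ite_eq']

lemma sum_ind' (X : Finset V) (s x : V) :
    ∑ y ∈ X, (if x + y = s then (1 : ℝ) else 0) = if x + s ∈ X then 1 else 0 := by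
  simp only [eq_add_iff, Finset.sum_ite_eq']

lemma rr_cast (X : Finset V) (s : V) : (rr X s : ℝ) = ∑ x ∈ X, if x + s ∈ X then (1 : ℝ) else 0 := by
  unfold rr
  rw [Finset.sum_boole]

lemma first_moment (X : Finset V) (hX : X.Nonempty) (z : ℕ) (s : V) :
    ∑ w' ∈ tup X z, ∑ w ∈ tup X z, Ys s w w' =
      (#X : ℝ) ^ z * (#X : ℝ) ^ z * ((z : ℝ) ^ 2 * rr X s / (#X : ℝ) ^ 2) := by
  have hk : (#X : ℝ) ≠ 0 := by exact_mod_cast hX.card_pos.ne'
  have h1 : ∀ w' : Fin z → V, ∑ w ∈ tup X z, Ys s w w' =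
      (#X : ℝ) ^ z * (z * ((∑ j, (if w' j + s ∈ X then (1 : ℝ) else 0)) / #X)) := by
    intro w'
    unfold Ys tup
    rw [iid_one X hX (fun x => ∑ j, if x + w' j = s then (1 : ℝ) else 0), Finset.sum_comm]
    simp only [sum_ind]
  simp only [h1]
  have h2 : ∀ w' : Fin z → V, (#X : ℝ) ^ z * (z * ((∑ j, (if w' j + s ∈ X then (1 : ℝ) else 0)) / #X)) =
      ((#X : ℝ) ^ z * z / #X) * ∑ j, (if w' j + s ∈ X then (1 : ℝ) else 0) := by
    intro w'; ring
  simp only [h2]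
  rw [← Finset.mul_sum]
  unfold tup
  rw [iid_one X hX (fun x => if x + s ∈ X then (1 : ℝ) else 0), ← rr_cast]
  field_simp

lemma second_moment (X : Finset V) (hX : X.Nonempty) (z : ℕ) (s : V) :
    ∑ w' ∈ tup X z, ∑ w ∈ tup X z, Ys s w w' ^ 2 ≤
      (#X : ℝ) ^ z * (#X : ℝ) ^ z * ((z : ℝ) ^ 2 * rr X s / (#X : ℝ) ^ 2 *
        (1 + 2 * z / #X + (z : ℝ) ^ 2 * rr X s / (#X : ℝ) ^ 2)) := by
  have hk : (#X : ℝ) ≠ 0 := by exact_mod_cast hX.card_pos.ne'
  have hk0 : (0 : ℝ) < #X := by exact_mod_cast hX.card_pos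
  set k : ℝ := (#X : ℝ) with hkdef
  have h1 : ∀ w' : Fin z → V, ∑ w ∈ tup X z, Ys s w w' ^ 2 ≤
      k ^ z * (z / k * (∑ x ∈ X, (∑ j, if x + w' j = s then (1 : ℝ) else 0) ^ 2) +
        z ^ 2 / k ^ 2 * (∑ j, (if w' j + s ∈ X then (1 : ℝ) else 0)) ^ 2) := by
    intro w'
    have e1 := iid_two (z := z) X hX (fun x => ∑ j, if x + w' j = s then (1 : ℝ) else 0)
    rw [Finset.sum_comm (s := X)] at e1
    simp only [sum_ind] at e1
    unfold Ys tup
    refine e1.trans (le_of_eq ?_)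
    rw [← hkdef]
    ring
  refine (Finset.sum_le_sum fun w' _ => h1 w').trans ?_
  rw [← Finset.mul_sum, Finset.sum_add_distrib, ← Finset.mul_sum, ← Finset.mul_sum]
  have h2 : ∑ w' ∈ tup X z, ∑ x ∈ X, (∑ j, if x + w' j = s then (1 : ℝ) else 0) ^ 2 ≤
      k ^ z * (z / k * rr X s + z ^ 2 / k ^ 2 * rr X s) := by
    rw [Finset.sum_comm]
    have e2 : ∀ x ∈ X, ∑ w' ∈ tup X z, (∑ j, if x + w' j = s then (1 : ℝ) else 0) ^ 2 ≤
        k ^ z * (z / k + z ^ 2 / k ^ 2) * (if x + s ∈ X then 1 else 0) := by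
      intro x _
      have e3 := iid_two (z := z) X hX (fun y => if x + y = s then (1 : ℝ) else 0)
      have e4 : ∀ y, (if x + y = s then (1 : ℝ) else 0) ^ 2 = if x + y = s then (1 : ℝ) else 0 := by
        intro y; split_ifs <;> norm_num
      simp only [e4, sum_ind'] at e3
      unfold tup
      refine e3.trans (le_of_eq ?_)
      rw [← hkdef]
      by_cases hx : x + s ∈ X
      · simp only [hx, if_true]; ring
      · simp only [hx, if_false]; ring
    refine (Finset.sum_le_sum e2).trans (le_of_eq ?_)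
    rw [← Finset.mul_sum, ← rr_cast]
    ring
  have h3 : ∑ w' ∈ tup X z, (∑ j, (if w' j + s ∈ X then (1 : ℝ) else 0)) ^ 2 ≤
      k ^ z * (z / k * rr X s + z ^ 2 / k ^ 2 * rr X s ^ 2) := by
    have e3 := iid_two (z := z) X hX (fun y => if y + s ∈ X then (1 : ℝ) else 0)
    have e4 : ∀ y, (if y + s ∈ X then (1 : ℝ) else 0) ^ 2 = if y + s ∈ X then (1 : ℝ) else 0 := by
      intro y; split_ifs <;> norm_num
    simp only [e4, ← rr_cast] at e3
    unfold tup
    refine e3.trans (le_of_eq ?_)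
    rw [← hkdef]
    ring
  have h4 : z / k * (∑ w' ∈ tup X z, ∑ x ∈ X, (∑ j, if x + w' j = s then (1 : ℝ) else 0) ^ 2) ≤
      z / k * (k ^ z * (z / k * rr X s + z ^ 2 / k ^ 2 * rr X s)) :=
    mul_le_mul_of_nonneg_left h2 (by positivity)
  have h5 : (z : ℝ) ^ 2 / k ^ 2 * ∑ w' ∈ tup X z, (∑ j, (if w' j + s ∈ X then (1 : ℝ) else 0)) ^ 2 ≤
      z ^ 2 / k ^ 2 * (k ^ z * (z / k * rr X s + z ^ 2 / k ^ 2 * rr X s ^ 2)) :=
    mul_le_mul_of_nonneg_left h3 (by positivity)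
  calc _ ≤ k ^ z * (z / k * (k ^ z * (z / k * rr X s + z ^ 2 / k ^ 2 * rr X s)) +
        z ^ 2 / k ^ 2 * (k ^ z * (z / k * rr X s + z ^ 2 / k ^ 2 * rr X s ^ 2))) :=
        mul_le_mul_of_nonneg_left (add_le_add h4 h5) (by positivity)
    _ = _ := by
        field_simp
        ring

/-- The weight function. -/
noncomputable def phi (X : Finset V) (z : ℕ) (s : V) : ℝ :=
  ((z : ℝ) ^ 2 * rr X s / (#X : ℝ) ^ 2) /
    (1 + 2 * z / #X + (z : ℝ) ^ 2 * rr X s / (#X : ℝ) ^ 2)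

lemma hit_prob (X : Finset V) (hX : X.Nonempty) (z : ℕ) (s : V) :
    (#X : ℝ) ^ z * (#X : ℝ) ^ z * phi X z s ≤
      ∑ w' ∈ tup X z, ∑ w ∈ tup X z, (if Ys s w w' ≠ 0 then (1 : ℝ) else 0) := by
  have hk0 : (0 : ℝ) < #X := by exact_mod_cast hX.card_pos
  set k : ℝ := (#X : ℝ) with hkdef
  set μ : ℝ := (z : ℝ) ^ 2 * rr X s / k ^ 2 with hμ
  have hμ0 : 0 ≤ μ := by positivity
  set S1 : ℝ := ∑ w' ∈ tup X z, ∑ w ∈ tup X z, Ys s w w' with hS1
  set S2 : ℝ := ∑ w' ∈ tup X z, ∑ w ∈ tup X z, Ys s w w' ^ 2 with hS2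
  set S0 : ℝ := ∑ w' ∈ tup X z, ∑ w ∈ tup X z, (if Ys s w w' ≠ 0 then (1 : ℝ) else 0) with hS0
  have hS1e : S1 = k ^ z * k ^ z * μ := first_moment X hX z s
  have hS2e : S2 ≤ k ^ z * k ^ z * (μ * (1 + 2 * z / k + μ)) := second_moment X hX z s
  have hS0nn : 0 ≤ S0 := Finset.sum_nonneg fun _ _ => Finset.sum_nonneg fun _ _ => by
    split_ifs <;> norm_num
  have hCS : S1 ^ 2 ≤ S0 * S2 := by
    rw [hS1, hS2, hS0, ← Finset.sum_product', ← Finset.sum_product', ← Finset.sum_product']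
    have h1 := Finset.sum_mul_sq_le_sq_mul_sq (tup X z ×ˢ tup X z)
      (fun p => if Ys s p.2 p.1 ≠ 0 then (1 : ℝ) else 0) (fun p => Ys s p.2 p.1)
    have h2 : ∀ p : (Fin z → V) × (Fin z → V),
        (if Ys s p.2 p.1 ≠ 0 then (1 : ℝ) else 0) * Ys s p.2 p.1 = Ys s p.2 p.1 := by
      intro p
      by_cases h : Ys s p.2 p.1 = 0
      · simp [h]
      · simp [h]
    have h3 : ∀ p : (Fin z → V) × (Fin z → V),
        (if Ys s p.2 p.1 ≠ 0 then (1 : ℝ) else 0) ^ 2 = if Ys s p.2 p.1 ≠ 0 then (1 : ℝ) else 0 := by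
      intro p; split_ifs <;> norm_num
    simp only [h2, h3] at h1
    exact h1
  have hden : (0 : ℝ) < 1 + 2 * z / k + μ := by positivity
  unfold phi
  rw [← hkdef, ← hμ]
  rcases eq_or_lt_of_le hμ0 with h0 | hpos
  · rw [← h0]; simp only [zero_div, mul_zero]; exact hS0nn
  · have hK : (0 : ℝ) < k ^ z * k ^ z := by positivity
    have h4 : (k ^ z * k ^ z * μ) ^ 2 ≤ S0 * (k ^ z * k ^ z * (μ * (1 + 2 * z / k + μ))) := by
      rw [← hS1e]
      exact hCS.trans (mul_le_mul_of_nonneg_left hS2e hS0nn)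
    rw [← mul_div_assoc, div_le_iff₀ hden]
    have h5 : (k ^ z * k ^ z * μ) * (k ^ z * k ^ z * μ) ≤
        (k ^ z * k ^ z * μ) * (S0 * (1 + 2 * z / k + μ)) := by
      calc _ = (k ^ z * k ^ z * μ) ^ 2 := by ring
        _ ≤ S0 * (k ^ z * k ^ z * (μ * (1 + 2 * z / k + μ))) := h4
        _ = _ := by ring
    exact le_of_mul_le_mul_left h5 (by positivity)

/-- The sampling lemma. -/
lemma sampling (X : Finset V) (hX : X.Nonempty) (z : ℕ) (T : Finset V) :
    ∃ Z ⊆ X, #Z ≤ 2 * z ∧ ∑ s ∈ T, phi X z s ≤ #(Z + Z) := by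
  by_contra hcon
  push Not at hcon
  have hk0 : (0 : ℝ) < #X := by exact_mod_cast hX.card_pos
  have hne : (tup X z).Nonempty := by
    obtain ⟨x, hx⟩ := hX
    exact ⟨fun _ => x, Fintype.mem_piFinset.2 fun _ => hx⟩
  have h1 : ∀ w' ∈ tup X z, ∀ w ∈ tup X z,
      ∑ s ∈ T, (if Ys s w w' ≠ 0 then (1 : ℝ) else 0) < ∑ s ∈ T, phi X z s := by
    intro w' hw' w hw
    set Z : Finset V := (univ.image w) ∪ (univ.image w') with hZ
    have hZX : Z ⊆ X := by
      intro x hx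
      rw [hZ, Finset.mem_union, Finset.mem_image, Finset.mem_image] at hx
      rcases hx with ⟨i, _, rfl⟩ | ⟨i, _, rfl⟩
      · exact Fintype.mem_piFinset.1 hw i
      · exact Fintype.mem_piFinset.1 hw' i
    have hZc : #Z ≤ 2 * z := by
      refine (Finset.card_union_le _ _).trans ?_
      have e1 : #(univ.image w) ≤ z := by simpa using Finset.card_image_le (s := univ) (f := w)
      have e2 : #(univ.image w') ≤ z := by simpa using Finset.card_image_le (s := univ) (f := w')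
      omega
    refine lt_of_le_of_lt ?_ (hcon Z hZX hZc)
    rw [Finset.sum_boole]
    have h2 : T.filter (fun s => Ys s w w' ≠ 0) ⊆ Z + Z := by
      intro s hs
      have hY := (Finset.mem_filter.1 hs).2
      unfold Ys at hY
      obtain ⟨i, _, hi⟩ := Finset.exists_ne_zero_of_sum_ne_zero hY
      obtain ⟨j, _, hj⟩ := Finset.exists_ne_zero_of_sum_ne_zero hi
      have hij : w i + w' j = s := by
        by_contra h; exact hj (if_neg h)
      rw [← hij]
      exact Finset.add_mem_add (Finset.mem_union_left _ (Finset.mem_image_of_mem _ (Finset.mem_univ _)))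
        (Finset.mem_union_right _ (Finset.mem_image_of_mem _ (Finset.mem_univ _)))
    exact_mod_cast Finset.card_le_card h2
  have h3 : ∑ w' ∈ tup X z, ∑ w ∈ tup X z, ∑ s ∈ T, (if Ys s w w' ≠ 0 then (1 : ℝ) else 0) <
      ∑ w' ∈ tup X z, ∑ w ∈ tup X z, ∑ s ∈ T, phi X z s :=
    Finset.sum_lt_sum_of_nonempty hne fun w' hw' =>
      Finset.sum_lt_sum_of_nonempty hne fun w hw => h1 w' hw' w hw
  have h4 : ∑ w' ∈ tup X z, ∑ w ∈ tup X z, ∑ s ∈ T, phi X z s =
      ∑ s ∈ T, (#X : ℝ) ^ z * (#X : ℝ) ^ z * phi X z s := by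
    rw [Finset.sum_const, Finset.sum_const, nsmul_eq_mul, nsmul_eq_mul, card_tup, ← Finset.mul_sum]
    ring
  have h5 : ∑ w' ∈ tup X z, ∑ w ∈ tup X z, ∑ s ∈ T, (if Ys s w w' ≠ 0 then (1 : ℝ) else 0) =
      ∑ s ∈ T, ∑ w' ∈ tup X z, ∑ w ∈ tup X z, (if Ys s w w' ≠ 0 then (1 : ℝ) else 0) := by
    have : ∀ w' ∈ tup X z, ∑ w ∈ tup X z, ∑ s ∈ T, (if Ys s w w' ≠ 0 then (1 : ℝ) else 0) =
        ∑ s ∈ T, ∑ w ∈ tup X z, (if Ys s w w' ≠ 0 then (1 : ℝ) else 0) := fun w' _ => Finset.sum_comm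
    rw [Finset.sum_congr rfl this, Finset.sum_comm]
  rw [h4, h5] at h3
  exact absurd (Finset.sum_le_sum fun s _ => hit_prob X hX z s) (not_le.2 h3)

end H2CS
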