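import Mathlib
import Pool.Agent.H2CS.Sample

set_option autoImplicit false
set_option linter.unusedSectionVars false

open Finset
open scoped Pointwise

namespace H2CS

variable {V : Type} [AddCommGroup V] [Module (ZMod 2) V] [Fintype V] [DecidableEq V]

/-- All sums of distinct elements lie in `B`. -/
def Ind (B : V → Prop) (X : Finset V) : Prop := ∀ x ∈ X, ∀ y ∈ X, x ≠ y → B (x + y)

/-- Contained in the span of `ρ` vectors. -/
def Sp (X : Finset V) (ρ : ℕ) : Prop :=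
  ∃ e : Fin ρ → V, ∀ x ∈ X, x ∈ Submodule.span (ZMod 2) (Set.range e)

lemma Ind.subset {B : V → Prop} {X Y : Finset V} (h : Ind B X) (hY : Y ⊆ X) : Ind B Y :=
  fun x hx y hy hne => h x (hY hx) y (hY hy) hne

lemma Sp.subset {X Y : Finset V} {ρ : ℕ} (h : Sp X ρ) (hY : Y ⊆ X) : Sp Y ρ := by
  obtain ⟨e, he⟩ := h
  exact ⟨e, fun x hx => he x (hY hx)⟩

/-- The first goodness condition. -/
def Good1 (n : ℕ) (B : V → Prop) : Prop :=
  ∀ ρ y : ℕ, 1 ≤ ρ → ρ ≤ n → 1 ≤ y → y ≤ 800000 * n →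
    ∀ Z : Finset V, Ind B Z → #Z ≤ y → Sp Z ρ → 1000 * #(Z + Z) ≤ 1001 * ((n + y) * ρ)

/-- The number of unpopular pairs. -/
noncomputable def unp (X : Finset V) (R : ℝ) : ℕ :=
  #((X ×ˢ X).filter (fun p => (rr X (p.1 + p.2) : ℝ) < R))

lemma pop {n d : ℕ} {B : V → Prop} (hG : Good1 n B) {X : Finset V} (hX : X.Nonempty)
    (hI : Ind B X) (hSp : Sp X d) (hd : 1 ≤ d) (hdn : d ≤ n) (hk : 800000 * n ≤ #X) :
    (unp X ((#X : ℝ) ^ 2 / (16 * 10 ^ 10 * (n * d))) : ℝ) ≤ (#X : ℝ) ^ 2 / 10000 := by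
  have hk0 : (0 : ℝ) < #X := by exact_mod_cast hX.card_pos
  set k : ℝ := (#X : ℝ) with hkdef
  obtain ⟨q, hq⟩ : ∃ q : ℕ, q = Nat.sqrt (n * d) := ⟨_, rfl⟩
  obtain ⟨z, hz⟩ : ∃ z : ℕ, z = 200000 * (q + 1) := ⟨_, rfl⟩
  have hnd : 1 ≤ n * d := Nat.mul_pos (by omega) (by omega)
  have hq1 : 1 ≤ q := by
    rw [hq]; exact Nat.sqrt_pos.2 (by omega)
  have hqn : q ≤ n := by
    have : q ≤ Nat.sqrt (n * n) := by rw [hq]; exact Nat.sqrt_le_sqrt (Nat.mul_le_mul_left n hdn)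
    rwa [Nat.sqrt_eq] at this
  have hql : q * q ≤ n * d := by rw [hq]; exact Nat.sqrt_le (n * d)
  have hqu : n * d < (q + 1) * (q + 1) := by rw [hq]; exact Nat.lt_succ_sqrt (n * d)
  have hzn : z ≤ 400000 * n := by
    have : q + 1 ≤ 2 * n := by omega
    calc z = 200000 * (q + 1) := hz
      _ ≤ 200000 * (2 * n) := Nat.mul_le_mul_left _ this
      _ = _ := by ring
  have hz0 : 0 < z := by rw [hz]; positivity
  have hzr : (0 : ℝ) < z := by exact_mod_cast hz0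
  have hndr : (1 : ℝ) ≤ (n : ℝ) * d := by exact_mod_cast hnd
  have hqlr : (q : ℝ) * q ≤ (n : ℝ) * d := by exact_mod_cast hql
  have hqur : (n : ℝ) * d ≤ ((q : ℝ) + 1) * (q + 1) := by exact_mod_cast hqu.le
  have hq1r : (1 : ℝ) ≤ q := by exact_mod_cast hq1
  have hzq : (z : ℝ) = 200000 * (q + 1) := by rw [hz]; push_cast; ring
  -- bounds on z^2
  have hz2u : (z : ℝ) ^ 2 ≤ 16 * 10 ^ 10 * (n * d) := by
    rw [hzq]; nlinarith
  have hz2l : 4 * 10 ^ 10 * ((n : ℝ) * d) ≤ (z : ℝ) ^ 2 := by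
    rw [hzq]; nlinarith
  by_contra hcon
  push Not at hcon
  set R : ℝ := k ^ 2 / (16 * 10 ^ 10 * (n * d)) with hR
  have hRz : (z : ℝ) ^ 2 * R ≤ k ^ 2 := by
    rw [hR, mul_div_assoc', div_le_iff₀ (by positivity)]
    calc (z : ℝ) ^ 2 * k ^ 2 ≤ (16 * 10 ^ 10 * (n * d)) * k ^ 2 :=
          mul_le_mul_of_nonneg_right hz2u (by positivity)
      _ = _ := by ring
  obtain ⟨Z, hZX, hZc, hZs⟩ := sampling X hX z (univ.filter (fun s => (rr X s : ℝ) < R))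
  have h1 : ∀ s ∈ univ.filter (fun s => (rr X s : ℝ) < R),
      (z : ℝ) ^ 2 / (3 * k ^ 2) * rr X s ≤ phi X z s := by
    intro s hs
    have hs' := (Finset.mem_filter.1 hs).2
    unfold phi
    rw [← hkdef]
    set μ : ℝ := (z : ℝ) ^ 2 * rr X s / k ^ 2 with hμ
    have hμ0 : 0 ≤ μ := by positivity
    have hμ1 : μ ≤ 1 := by
      rw [hμ, div_le_one (by positivity)]
      refine le_trans ?_ hRz
      exact mul_le_mul_of_nonneg_left hs'.le (by positivity)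
    have h2z : 2 * (z : ℝ) / k ≤ 1 := by
      rw [div_le_one hk0]
      have : 2 * z ≤ #X := by omega
      rw [hkdef]
      exact_mod_cast this
    have e1 : (z : ℝ) ^ 2 / (3 * k ^ 2) * rr X s = μ / 3 := by
      rw [hμ]; field_simp
    rw [e1]
    exact div_le_div_of_nonneg_left hμ0 (by positivity) (by linarith)
  have h2 := Finset.sum_le_sum h1
  rw [← Finset.mul_sum] at h2
  have h3 : (unp X R : ℝ) = ∑ s ∈ univ.filter (fun s => (rr X s : ℝ) < R), (rr X s : ℝ) := by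
    unfold unp
    rw [pairs_eq X (fun s => (rr X s : ℝ) < R)]
    push_cast; rfl
  rw [← h3] at h2
  have h4 : (z : ℝ) ^ 2 / (3 * k ^ 2) * unp X R ≤ #(Z + Z) := h2.trans hZs
  have h5 : (z : ℝ) ^ 2 / (3 * k ^ 2) * (k ^ 2 / 10000) < (z : ℝ) ^ 2 / (3 * k ^ 2) * unp X R :=
    mul_lt_mul_of_pos_left hcon (by positivity)
  have h6 : (z : ℝ) ^ 2 / (3 * k ^ 2) * (k ^ 2 / 10000) = (z : ℝ) ^ 2 / 30000 := by
    field_simp; norm_num
  have h7 := hG d (2 * z) hd hdn (by omega) (by omega) Z (hI.subset hZX) hZc (hSp.subset hZX)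
  have h8 : (1000 : ℝ) * #(Z + Z) ≤ 1001 * ((n + 2 * z) * d) := by exact_mod_cast h7
  have h9 : ((n : ℝ) + 2 * z) * d ≤ 800001 * (n * d) := by
    have : (z : ℝ) ≤ 400000 * n := by exact_mod_cast hzn
    have hd0 : (0 : ℝ) ≤ d := by positivity
    nlinarith
  nlinarith

end H2CS
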