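import Mathlib
import Pool.Agent.H2CS.Pop

set_option autoImplicit false
set_option linter.unusedSectionVars false

open Finset
open scoped Pointwise

namespace H2CS

variable {V : Type} [AddCommGroup V] [Module (ZMod 2) V] [Fintype V] [DecidableEq V]

/-- Number of unpopular partners. -/
noncomputable def bad (X : Finset V) (R : ℝ) (x : V) : ℕ :=
  #(X.filter (fun y => (rr X (x + y) : ℝ) < R))

lemma unp_eq (X : Finset V) (R : ℝ) : unp X R = ∑ x ∈ X, bad X R x := by
  unfold unp bad
  simp only [Finset.card_filter]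
  rw [Finset.sum_product]

/-- The popular sums. -/
noncomputable def Spop (X : Finset V) (R : ℝ) : Finset V := univ.filter (fun s => R ≤ (rr X s : ℝ))

lemma card_Spop (X : Finset V) (R : ℝ) : (#(Spop X R) : ℝ) * R ≤ (#X : ℝ) ^ 2 := by
  have h1 : ∑ s ∈ Spop X R, R ≤ ∑ s ∈ Spop X R, (rr X s : ℝ) :=
    Finset.sum_le_sum fun s hs => (Finset.mem_filter.1 hs).2
  rw [Finset.sum_const, nsmul_eq_mul] at h1
  have h2 : ∑ s ∈ Spop X R, (rr X s : ℝ) ≤ ∑ s, (rr X s : ℝ) :=
    Finset.sum_le_sum_of_subset_of_nonneg (Finset.subset_univ _) fun _ _ _ => by positivity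
  have h3 : ∑ s, (rr X s : ℝ) = (#X : ℝ) ^ 2 := by
    have := sum_rr X
    rw [sq]
    exact_mod_cast this
  linarith

/-- Elements with few unpopular partners. -/
noncomputable def core (X : Finset V) (R : ℝ) : Finset V :=
  X.filter (fun x => 100 * bad X R x ≤ #X)

lemma core_subset (X : Finset V) (R : ℝ) : core X R ⊆ X := Finset.filter_subset _ _

lemma card_core {X : Finset V} (hX : X.Nonempty) {R : ℝ}
    (h : (unp X R : ℝ) ≤ (#X : ℝ) ^ 2 / 10000) : (99 / 100) * (#X : ℝ) ≤ #(core X R) := by
  have hk0 : (0 : ℝ) < #X := by exact_mod_cast hX.card_pos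
  have h1 : #X = #(core X R) + #(X.filter (fun x => ¬ 100 * bad X R x ≤ #X)) :=
    (Finset.card_filter_add_card_filter_not _).symm
  have h2 : (#(X.filter (fun x => ¬ 100 * bad X R x ≤ #X)) : ℝ) * (#X / 100) ≤ unp X R := by
    rw [unp_eq]
    push_cast
    calc _ = ∑ x ∈ X.filter (fun x => ¬ 100 * bad X R x ≤ #X), ((#X : ℝ) / 100) := by
          rw [Finset.sum_const, nsmul_eq_mul]
      _ ≤ ∑ x ∈ X.filter (fun x => ¬ 100 * bad X R x ≤ #X), (bad X R x : ℝ) := by
          refine Finset.sum_le_sum fun x hx => ?_
          have := (Finset.mem_filter.1 hx).2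
          push Not at this
          have h3 : (#X : ℝ) < 100 * bad X R x := by exact_mod_cast this
          linarith
      _ ≤ _ := Finset.sum_le_sum_of_subset_of_nonneg (Finset.filter_subset _ _) fun _ _ _ => by positivity
  have h3 : (#X : ℝ) = #(core X R) + #(X.filter (fun x => ¬ 100 * bad X R x ≤ #X)) := by exact_mod_cast h1
  have h4 : (#(X.filter (fun x => ¬ 100 * bad X R x ≤ #X)) : ℝ) * (#X / 100) ≤ (#X / 100) * (#X / 100) := by
    nlinarith
  have h5 := le_of_mul_le_mul_right h4 (div_pos hk0 (by norm_num))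
  linarith

/-- Popular translates. -/
noncomputable def Gd (X : Finset V) (R : ℝ) (x : V) : Finset V :=
  (Spop X R).filter (fun s => x + s ∈ X)

lemma card_Gd (X : Finset V) (R : ℝ) (x : V) : #(Gd X R x) + bad X R x = #X := by
  have h1 : #X = #(X.filter (fun y => (rr X (x + y) : ℝ) < R)) +
      #(X.filter (fun y => ¬ (rr X (x + y) : ℝ) < R)) :=
    (Finset.card_filter_add_card_filter_not _).symm
  have h2 : #(Gd X R x) = #(X.filter (fun y => ¬ (rr X (x + y) : ℝ) < R)) := by
    refine Finset.card_bij' (fun s _ => x + s) (fun y _ => x + y) ?_ ?_ ?_ ?_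
    · intro s hs
      simp only [Gd, Spop, Finset.mem_filter, Finset.mem_univ, true_and] at hs ⊢
      exact ⟨hs.2, by rw [add_add_cancel']; exact not_lt.2 hs.1⟩
    · intro y hy
      simp only [Gd, Spop, Finset.mem_filter, Finset.mem_univ, true_and] at hy ⊢
      exact ⟨not_lt.1 hy.2, by rw [add_add_cancel']; exact hy.1⟩
    · intro s _; exact add_add_cancel' _ _
    · intro s _; exact add_add_cancel' _ _
  unfold bad
  omega

lemma card_core_add (X : Finset V) (R : ℝ) :
    (#(core X R + core X R) : ℝ) * ((98 / 100) * #X) ≤ (#(Spop X R) : ℝ) ^ 2 := by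
  have h1 : ∀ h ∈ core X R + core X R, (98 / 100) * (#X : ℝ) ≤ rr (Spop X R) h := by
    intro h hh
    obtain ⟨x, hx, x', hx', rfl⟩ := Finset.mem_add.1 hh
    have e1 := card_Gd X R x
    have hxb : 100 * bad X R x ≤ #X := (Finset.mem_filter.1 hx).2
    have hxb' : 100 * bad X R x' ≤ #X := (Finset.mem_filter.1 hx').2
    -- elements popular for both
    set Y := X.filter (fun y => ¬ (rr X (x + y) : ℝ) < R ∧ ¬ (rr X (x' + y) : ℝ) < R) with hY
    have h2 : #X ≤ #Y + (bad X R x + bad X R x') := by
      have h3 : X ⊆ Y ∪ (X.filter (fun y => (rr X (x + y) : ℝ) < R) ∪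
          X.filter (fun y => (rr X (x' + y) : ℝ) < R)) := by
        intro y hy
        simp only [hY, Finset.mem_union, Finset.mem_filter, hy, true_and]
        tauto
      exact (Finset.card_le_card h3).trans ((Finset.card_union_le _ _).trans
        (Nat.add_le_add_left (Finset.card_union_le _ _) _))
    have h4 : #Y ≤ rr (Spop X R) (x + x') := by
      unfold rr
      refine Finset.card_le_card_of_injOn (fun y => x + y) ?_ ?_
      · intro y hy
        have hy' := Finset.mem_filter.1 (Finset.mem_coe.1 hy)
        rw [Finset.mem_coe, Finset.mem_filter]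
        refine ⟨Finset.mem_filter.2 ⟨Finset.mem_univ _, not_lt.1 hy'.2.1⟩, ?_⟩
        have : x + y + (x + x') = x' + y := by
          have := add_self' x
          calc x + y + (x + x') = (x + x) + (x' + y) := by abel
            _ = x' + y := by rw [this, zero_add]
        rw [this]
        exact Finset.mem_filter.2 ⟨Finset.mem_univ _, not_lt.1 hy'.2.2⟩
      · intro a _ b _ hab
        exact add_left_cancel hab
    have h5 : 98 * #X ≤ 100 * rr (Spop X R) (x + x') := by omega
    have h6 : (98 : ℝ) * #X ≤ 100 * rr (Spop X R) (x + x') := by exact_mod_cast h5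
    linarith
  have h2 := Finset.sum_le_sum h1
  rw [Finset.sum_const, nsmul_eq_mul] at h2
  refine h2.trans ?_
  have h3 : ∑ s ∈ core X R + core X R, (rr (Spop X R) s : ℝ) ≤ ∑ s, (rr (Spop X R) s : ℝ) :=
    Finset.sum_le_sum_of_subset_of_nonneg (Finset.subset_univ _) fun _ _ _ => by positivity
  refine h3.trans (le_of_eq ?_)
  have := sum_rr (Spop X R)
  rw [sq]
  exact_mod_cast this

lemma struct {X : Finset V} (hX : X.Nonempty) {R : ℝ}
    (hunp : (unp X R : ℝ) ≤ (#X : ℝ) ^ 2 / 10000)
    (hS : (#(Spop X R) : ℝ) ≤ (105 / 100) * #X) :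
    ∃ K : Submodule (ZMod 2) V, (∀ h ∈ K, ∃ x ∈ X, x + h ∈ X) ∧
      (93 / 100) * (Nat.card K : ℝ) ≤ #X ∧ (99 / 100) * (#X : ℝ) ≤ Nat.card K := by
  have hk0 : (0 : ℝ) < #X := by exact_mod_cast hX.card_pos
  have hcore := card_core hX hunp
  -- sums of core elements are very popular
  have h1 : ∀ x ∈ core X R, ∀ x' ∈ core X R, (93 / 100) * (#X : ℝ) ≤ rr X (x + x') := by
    intro x hx x' hx'
    have e1 := card_Gd X R x
    have e2 := card_Gd X R x'
    have hxb : 100 * bad X R x ≤ #X := (Finset.mem_filter.1 hx).2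
    have hxb' : 100 * bad X R x' ≤ #X := (Finset.mem_filter.1 hx').2
    have h2 : #(Gd X R x ∪ Gd X R x') ≤ #(Spop X R) :=
      Finset.card_le_card (Finset.union_subset (Finset.filter_subset _ _) (Finset.filter_subset _ _))
    have h3 := Finset.card_union_add_card_inter (Gd X R x) (Gd X R x')
    have h4 : #(Gd X R x ∩ Gd X R x') ≤ rr X (x + x') := by
      unfold rr
      refine Finset.card_le_card_of_injOn (fun s => x + s) ?_ ?_
      · intro s hs
        have hs' := Finset.mem_inter.1 (Finset.mem_coe.1 hs)
        rw [Finset.mem_coe, Finset.mem_filter]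
        refine ⟨(Finset.mem_filter.1 hs'.1).2, ?_⟩
        have : x + s + (x + x') = x' + s := by
          have := add_self' x
          calc x + s + (x + x') = (x + x) + (x' + s) := by abel
            _ = x' + s := by rw [this, zero_add]
        rw [this]
        exact (Finset.mem_filter.1 hs'.2).2
      · intro a _ b _ hab
        exact add_left_cancel hab
    have h5 : 198 * #X ≤ 100 * (#(Spop X R) + rr X (x + x')) := by omega
    have h6 : (198 : ℝ) * #X ≤ 100 * (#(Spop X R) + rr X (x + x')) := by exact_mod_cast h5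
    linarith
  -- popular elements are sums of core elements
  have h2 : ∀ h : V, (86 / 100) * (#X : ℝ) ≤ rr X h → ∃ x ∈ core X R, x + h ∈ core X R := by
    intro h hh
    by_contra hcon
    push Not at hcon
    have hsub : X.filter (fun x => x + h ∈ X) ⊆ (X \ core X R) ∪ ((X \ core X R).image (fun y => y + h)) := by
      intro x hx
      have hx' := Finset.mem_filter.1 hx
      rw [Finset.mem_union]
      by_cases hc : x ∈ core X R
      · right
        rw [Finset.mem_image]
        refine ⟨x + h, Finset.mem_sdiff.2 ⟨hx'.2, hcon x hc⟩, ?_⟩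
        rw [add_assoc, add_self', add_zero]
      · left
        exact Finset.mem_sdiff.2 ⟨hx'.1, hc⟩
    have h3 : rr X h ≤ #(X \ core X R) + #(X \ core X R) := by
      unfold rr
      exact (Finset.card_le_card hsub).trans ((Finset.card_union_le _ _).trans
        (Nat.add_le_add_left Finset.card_image_le _))
    have h4 : #(X \ core X R) + #(core X R) = #X := Finset.card_sdiff_add_card_eq_card (core_subset X R)
    have h5 : (rr X h : ℝ) ≤ #(X \ core X R) + #(X \ core X R) := by exact_mod_cast h3
    have h6 : (#(X \ core X R) : ℝ) + #(core X R) = #X := by exact_mod_cast h4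
    linarith
  have h3 : ∀ h h' : V, (93 / 100) * (#X : ℝ) ≤ rr X h → (93 / 100) * (#X : ℝ) ≤ rr X h' →
      (93 / 100) * (#X : ℝ) ≤ rr X (h + h') := by
    intro h h' hh hh'
    have e1 : (86 / 100) * (#X : ℝ) ≤ rr X (h + h') := by
      have e2 : #((X.filter (fun x => x + h ∈ X)).image (fun x => x + h) ∩
          X.filter (fun x => x + h' ∈ X)) ≤ rr X (h + h') := by
        unfold rr
        refine Finset.card_le_card_of_injOn (fun y => y + h) ?_ ?_
        · intro y hy
          have hy' := Finset.mem_inter.1 (Finset.mem_coe.1 hy)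
          obtain ⟨x, hx, hxy⟩ := Finset.mem_image.1 hy'.1
          have hx' := Finset.mem_filter.1 hx
          rw [Finset.mem_coe, Finset.mem_filter]
          have e3 : y + h = x := by rw [← hxy, add_assoc, add_self', add_zero]
          refine ⟨by simp only [e3]; exact hx'.1, ?_⟩
          have e4 : y + h + (h + h') = y + h' := by
            calc y + h + (h + h') = y + (h + h) + h' := by abel
              _ = y + h' := by rw [add_self', add_zero]
          simp only [e4]
          exact (Finset.mem_filter.1 hy'.2).2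
        · intro a _ b _ hab
          exact add_right_cancel hab
      have e5 := Finset.card_union_add_card_inter
        ((X.filter (fun x => x + h ∈ X)).image (fun x => x + h)) (X.filter (fun x => x + h' ∈ X))
      have e6 : #((X.filter (fun x => x + h ∈ X)).image (fun x => x + h)) = rr X h := by
        rw [Finset.card_image_of_injective _ (fun a b hab => add_right_cancel hab)]; rfl
      have e7 : #((X.filter (fun x => x + h ∈ X)).image (fun x => x + h) ∪
          X.filter (fun x => x + h' ∈ X)) ≤ #X := by
        refine Finset.card_le_card (Finset.union_subset ?_ (Finset.filter_subset _ _))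
        intro y hy
        obtain ⟨x, hx, rfl⟩ := Finset.mem_image.1 hy
        exact (Finset.mem_filter.1 hx).2
      have e8 : #(X.filter (fun x => x + h' ∈ X)) = rr X h' := rfl
      have e9 : rr X h + rr X h' ≤ #X + rr X (h + h') := by omega
      have e10 : (rr X h : ℝ) + rr X h' ≤ #X + rr X (h + h') := by exact_mod_cast e9
      linarith
    obtain ⟨x, hx, hx'⟩ := h2 (h + h') e1
    have e2 := h1 x hx _ hx'
    rwa [add_add_cancel'] at e2
  have h0 : (93 / 100) * (#X : ℝ) ≤ rr X 0 := by
    have : rr X 0 = #X := by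
      unfold rr
      congr 1
      refine Finset.filter_true_of_mem fun x hx => ?_
      simpa using hx
    rw [this]; linarith
  have hneg : ∀ x : V, -x = x := fun x => by
    rw [neg_eq_iff_add_eq_zero]; exact add_self' x
  let KA : AddSubgroup V :=
    { carrier := {h | (93 / 100) * (#X : ℝ) ≤ rr X h}
      add_mem' := fun {a b} ha hb => h3 a b ha hb
      zero_mem' := h0
      neg_mem' := fun {x} hx => by
        simp only [Set.mem_ofPred_eq] at hx ⊢
        rw [hneg]; exact hx }
  let K : Submodule (ZMod 2) V := AddSubgroup.toZModSubmodule 2 KA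
  have hKmem : ∀ h, h ∈ K ↔ (93 / 100) * (#X : ℝ) ≤ rr X h := fun h => Iff.rfl
  have hcard : Nat.card K = #(Spop X ((93 / 100) * (#X : ℝ))) := by
    have e : K ≃ {h : V // h ∈ Spop X ((93 / 100) * (#X : ℝ))} :=
      Equiv.subtypeEquivRight (fun h => by rw [hKmem, Spop, Finset.mem_filter]; simp)
    rw [Nat.card_congr e, Nat.card_eq_fintype_card, Fintype.card_coe]
  refine ⟨K, ?_, ?_, ?_⟩
  · intro h hh
    have h5 := (hKmem h).1 hh
    have h6 : 0 < rr X h := by
      have : (0 : ℝ) < rr X h := by linarith
      exact_mod_cast this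
    unfold rr at h6
    obtain ⟨x, hx⟩ := Finset.card_pos.1 h6
    exact ⟨x, (Finset.mem_filter.1 hx).1, (Finset.mem_filter.1 hx).2⟩
  · rw [hcard]
    have h5 := card_Spop X ((93 / 100) * (#X : ℝ))
    have h6 : (#(Spop X ((93 / 100) * (#X : ℝ))) : ℝ) * (93 / 100) * #X ≤ #X * #X := by
      nlinarith
    have h7 := le_of_mul_le_mul_right h6 hk0
    linarith
  · have hcore_ne : (core X R).Nonempty := by
      rw [← Finset.card_pos]
      have : (0 : ℝ) < #(core X R) := by linarith
      exact_mod_cast this
    obtain ⟨x0, hx0⟩ := hcore_ne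
    rw [hcard]
    have h5 : #(core X R) ≤ #(Spop X ((93 / 100) * (#X : ℝ))) := by
      refine Finset.card_le_card_of_injOn (fun x => x0 + x) ?_ ?_
      · intro x hx
        rw [Finset.mem_coe, Spop, Finset.mem_filter]
        exact ⟨Finset.mem_univ _, h1 x0 hx0 x (Finset.mem_coe.1 hx)⟩
      · intro a _ b _ hab
        exact add_left_cancel hab
    have h6 : (#(core X R) : ℝ) ≤ #(Spop X ((93 / 100) * (#X : ℝ))) := by
      exact_mod_cast h5
    linarith

end H2CS
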