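import Mathlib
import Pool.Agent.H2CS.Struct

set_option autoImplicit false
set_option linter.unusedSectionVars false

open Finset
open scoped Pointwise

namespace H2CS

variable {V : Type} [AddCommGroup V] [Module (ZMod 2) V] [Fintype V] [DecidableEq V]

/-- Dependent choice. -/
lemma greedy {W : Type} (Q : (ℕ → W) → ℕ → W → Prop) (l : ℕ) (w0 : W)
    (hcongr : ∀ (x x' : ℕ → W) (b : ℕ) (y : W), (∀ i < b, x i = x' i) → Q x b y → Q x' b y)
    (hstep : ∀ b < l, ∀ x : ℕ → W, (∀ i < b, Q x i (x i)) → ∃ y, Q x b y) :
    ∃ x : ℕ → W, ∀ b < l, Q x b (x b) := by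
  have key : ∀ l' ≤ l, ∃ x : ℕ → W, ∀ b < l', Q x b (x b) := by
    intro l'
    induction l' with
    | zero => intro _; exact ⟨fun _ => w0, fun b hb => absurd hb (Nat.not_lt_zero _)⟩
    | succ l' ih =>
      intro hl
      obtain ⟨x, hx⟩ := ih (by omega)
      obtain ⟨y, hy⟩ := hstep l' (by omega) x hx
      refine ⟨Function.update x l' y, fun b hb => ?_⟩
      rcases Nat.lt_succ_iff_lt_or_eq.1 hb with h | h
      · rw [Function.update_of_ne (by omega)]
        refine hcongr x _ b _ (fun i hi => ?_) (hx b h)
        rw [Function.update_of_ne (by omega)]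
      · subst h
        rw [Function.update_self]
        refine hcongr x _ b _ (fun i hi => ?_) hy
        rw [Function.update_of_ne (by omega)]
  exact key l le_rfl

/-- Span of the first `b` terms. -/
def spn (x : ℕ → V) (b : ℕ) : Submodule (ZMod 2) V :=
  Submodule.span (ZMod 2) (((Finset.range b).image x : Finset V) : Set V)

lemma spn_congr {x x' : ℕ → V} {b : ℕ} (h : ∀ i < b, x i = x' i) : spn x b = spn x' b := by
  unfold spn
  rw [Finset.image_congr (g := x') (fun i hi => h i (by simpa using hi))]

lemma mem_spn {x : ℕ → V} {i b : ℕ} (h : i < b) : x i ∈ spn x b :=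
  Submodule.subset_span (by
    rw [Finset.mem_coe, Finset.mem_image]
    exact ⟨i, Finset.mem_range.2 h, rfl⟩)

lemma finrank_spn (x : ℕ → V) (b : ℕ) : Module.finrank (ZMod 2) (spn x b) ≤ b := by
  unfold spn
  refine (finrank_span_finset_le_card _).trans ?_
  simpa using Finset.card_image_le (s := Finset.range b) (f := x)

lemma spn_mono {x : ℕ → V} {a b : ℕ} (h : a ≤ b) : spn x a ≤ spn x b := by
  unfold spn
  refine Submodule.span_mono ?_
  rw [Finset.coe_subset]
  exact Finset.image_subset_image (Finset.range_subset_range.2 h)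

/-- The second goodness condition. -/
def Good2 (n : ℕ) (B : V → Prop) : Prop :=
  ∀ j : ℕ, 1 ≤ j → j ≤ n → ∀ (e : Fin j → V) (g : Fin (4 * n) → V) (x : Fin (4 * j) → V),
    (∀ a, g a ∈ Submodule.span (ZMod 2) (Set.range e)) →
    Function.Injective (fun p : Fin (4 * n) × Fin (4 * j) => g p.1 + x p.2) →
    ∃ a b, ¬ B (g a + x b)

/-- Dimension of the span of `X`. -/
noncomputable def dm (X : Finset V) : ℕ :=
  Module.finrank (ZMod 2) (Submodule.span (ZMod 2) (X : Set V))

lemma exists_basis (U : Submodule (ZMod 2) V) :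
    ∃ e : Fin (Module.finrank (ZMod 2) U) → V, Submodule.span (ZMod 2) (Set.range e) = U := by
  have hb := Module.finBasis (ZMod 2) U
  refine ⟨fun i => (hb i : V), ?_⟩
  have h3 := congrArg (Submodule.map U.subtype) hb.span_eq
  rw [Submodule.map_span, Submodule.map_top, Submodule.range_subtype, ← Set.range_comp] at h3
  exact h3

lemma sp_dm (X : Finset V) : Sp X (dm X) := by
  obtain ⟨e, he⟩ := exists_basis (Submodule.span (ZMod 2) (X : Set V))
  refine ⟨e, fun x hx => ?_⟩
  have : x ∈ Submodule.span (ZMod 2) (X : Set V) := Submodule.subset_span hx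
  rw [← he] at this
  exact this

lemma exists_notMem {X : Finset V} {U : Submodule (ZMod 2) V}
    (h : Module.finrank (ZMod 2) U < dm X) : ∃ x ∈ X, x ∉ U := by
  by_contra hcon
  push Not at hcon
  have h1 : Submodule.span (ZMod 2) (X : Set V) ≤ U := Submodule.span_le.2 fun x hx => hcon x hx
  have h2 := Submodule.finrank_mono h1
  unfold dm at h
  omega

lemma inter_small {n : ℕ} (hn : 1 ≤ n) {B : V → Prop} (hG : Good2 n B) {X : Finset V} (hI : Ind B X)
    (hdn : dm X ≤ n) (U : Submodule (ZMod 2) V) (hU : 5 * Module.finrank (ZMod 2) U ≤ dm X)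
    (T : Finset V) (hTX : T ⊆ X) (hTU : ∀ x ∈ T, x ∈ U) : #T < 4 * n := by
  by_contra hcon
  push Not at hcon
  rcases Nat.eq_zero_or_pos (Module.finrank (ZMod 2) U) with h0 | hj
  · have hbot : U = ⊥ := Submodule.finrank_eq_zero.1 h0
    have h1 : T ⊆ {0} := by
      intro x hx
      have := hTU x hx
      rw [hbot, Submodule.mem_bot] at this
      simp [this]
    have h2 := Finset.card_le_card h1
    rw [Finset.card_singleton] at h2
    omega
  · set j := Module.finrank (ZMod 2) U with hjdef
    obtain ⟨e, hspan⟩ := exists_basis U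
    -- the elements of U
    obtain ⟨T', hT', hT'c⟩ := Finset.exists_subset_card_eq hcon
    let eqv : Fin (4 * n) ≃ T' := (T'.equivFinOfCardEq hT'c).symm
    let g : Fin (4 * n) → V := fun a => (eqv a : V)
    have hginj : Function.Injective g := fun a b hab => eqv.injective (Subtype.ext hab)
    have hgT : ∀ a, g a ∈ T := fun a => hT' (eqv a).2
    -- the elements outside
    obtain ⟨x, hx⟩ := greedy (W := V) (fun x b y => y ∈ X ∧ y ∉ U ⊔ spn x b) (4 * j) 0
      (by
        intro x x' b y h hQ
        rw [← spn_congr h]; exact hQ)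
      (by
        intro b hb' x _
        have h1 : Module.finrank (ZMod 2) (U ⊔ spn x b : Submodule (ZMod 2) V) < dm X := by
          have e1 := Submodule.finrank_add_le_finrank_add_finrank U (spn x b)
          have e2 := finrank_spn x b
          omega
        obtain ⟨y, hy, hyU⟩ := exists_notMem h1
        exact ⟨y, hy, hyU⟩)
    have hinj : Function.Injective (fun p : Fin (4 * n) × Fin (4 * j) => g p.1 + x p.2) := by
      have key : ∀ (a a' : Fin (4 * n)) (b b' : ℕ), b < b' → b' < 4 * j →
          g a + x b = g a' + x b' → False := by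
        intro a a' b b' hbb hb' heq
        refine (hx b' hb').2 ?_
        have e1 : x b' = (g a' + g a) + x b := by
          calc x b' = (g a' + g a') + x b' := by rw [add_self', zero_add]
            _ = g a' + (g a' + x b') := by rw [add_assoc]
            _ = g a' + (g a + x b) := by rw [heq]
            _ = _ := by rw [add_assoc]
        rw [e1]
        exact Submodule.add_mem_sup (U.add_mem (hTU _ (hgT _)) (hTU _ (hgT _))) (mem_spn hbb)
      rintro ⟨a, b⟩ ⟨a', b'⟩ h
      simp only at h
      rcases lt_trichotomy (b : ℕ) (b' : ℕ) with hlt | heq | hgt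
      · exact (key a a' b b' hlt b'.2 h).elim
      · have hbb : b = b' := Fin.ext heq
        subst hbb
        rw [hginj (add_right_cancel h)]
      · exact (key a' a b' b hgt b.2 h.symm).elim
    obtain ⟨a, b, hab⟩ := hG j hj (by omega) e g (fun b => x b)
      (fun a => by rw [hspan]; exact hTU _ (hgT a)) hinj
    apply hab
    refine hI _ (hTX (hgT a)) _ (hx b b.2).1 ?_
    intro heq
    refine (hx b b.2).2 ?_
    rw [← heq]
    exact Submodule.mem_sup_left (hTU _ (hgT a))

/-! ### Minimum degree -/

lemma rr_erase (Y : Finset V) (x s : V) :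
    rr Y s ≤ rr (Y.erase x) s + 2 * (if x + s ∈ Y then 1 else 0) := by
  unfold rr
  by_cases h : x + s ∈ Y
  · rw [if_pos h]
    have h1 : Y.filter (fun y => y + s ∈ Y) ⊆
        (Y.erase x).filter (fun y => y + s ∈ Y.erase x) ∪ {x, x + s} := by
      intro y hy
      have hy' := Finset.mem_filter.1 hy
      simp only [Finset.mem_union, Finset.mem_filter, Finset.mem_erase, Finset.mem_insert,
        Finset.mem_singleton]
      by_cases h1 : y = x
      · right; left; exact h1
      · by_cases h2 : y + s = x
        · right; right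
          rw [← h2, add_assoc, add_self', add_zero]
        · left; exact ⟨⟨h1, hy'.1⟩, h2, hy'.2⟩
    refine (Finset.card_le_card h1).trans ((Finset.card_union_le _ _).trans ?_)
    have : #({x, x + s} : Finset V) ≤ 2 := Finset.card_le_two
    omega
  · rw [if_neg h]
    refine le_trans (Finset.card_le_card ?_) (Nat.le_add_right _ _)
    intro y hy
    have hy' := Finset.mem_filter.1 hy
    simp only [Finset.mem_filter, Finset.mem_erase]
    have h1 : y ≠ x := by rintro rfl; exact h hy'.2
    have h2 : y + s ≠ x := by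
      intro h2
      apply h
      rw [← h2, add_assoc, add_self', add_zero]
      exact hy'.1
    exact ⟨⟨h1, hy'.1⟩, h2, hy'.2⟩

lemma mindeg {ι : Type} (PP : Finset ι) (s : ι → V) (X : Finset V) (hX : X.Nonempty) (D0 : ℝ)
    (hD0 : 0 < D0) (hD : D0 * #X ≤ ∑ p ∈ PP, (rr X (s p) : ℝ)) :
    ∃ Y ⊆ X, Y.Nonempty ∧ ∀ x ∈ Y, D0 / 2 ≤ #(PP.filter (fun p => x + s p ∈ Y)) := by
  induction hc : #X using Nat.strong_induction_on generalizing X with
  | _ c ih =>
    by_cases hall : ∀ x ∈ X, D0 / 2 ≤ #(PP.filter (fun p => x + s p ∈ X))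
    · exact ⟨X, Finset.Subset.refl _, hX, hall⟩
    · push Not at hall
      obtain ⟨x, hx, hdeg⟩ := hall
      have h1 : ∑ p ∈ PP, (rr X (s p) : ℝ) ≤ ∑ p ∈ PP, (rr (X.erase x) (s p) : ℝ) +
          2 * #(PP.filter (fun p => x + s p ∈ X)) := by
        have e1 : (#(PP.filter (fun p => x + s p ∈ X)) : ℝ) =
            ∑ p ∈ PP, (if x + s p ∈ X then (1 : ℝ) else 0) := by rw [Finset.sum_boole]
        rw [e1, Finset.mul_sum, ← Finset.sum_add_distrib]
        refine Finset.sum_le_sum fun p _ => ?_
        have := rr_erase X x (s p)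
        exact_mod_cast this
      have hcard : #(X.erase x) + 1 = #X := Finset.card_erase_add_one hx
      have hcr : (#(X.erase x) : ℝ) + 1 = #X := by exact_mod_cast hcard
      have h2 : D0 * #(X.erase x) ≤ ∑ p ∈ PP, (rr (X.erase x) (s p) : ℝ) := by nlinarith
      have hne : (X.erase x).Nonempty := by
        rw [Finset.nonempty_iff_ne_empty]
        intro hemp
        rw [hemp, Finset.card_empty] at hcr
        have e3 : ∑ p ∈ PP, (rr X (s p) : ℝ) ≤ #(PP.filter (fun p => x + s p ∈ X)) := by
          have e1 : (#(PP.filter (fun p => x + s p ∈ X)) : ℝ) =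
              ∑ p ∈ PP, (if x + s p ∈ X then (1 : ℝ) else 0) := by rw [Finset.sum_boole]
          rw [e1]
          refine Finset.sum_le_sum fun p _ => ?_
          have hX1 : X = {x} := by
            rw [← Finset.insert_erase hx, hemp]; rfl
          unfold rr
          rw [hX1]
          by_cases h : x + s p ∈ ({x} : Finset V)
          · rw [if_pos h]
            have := Finset.card_filter_le ({x} : Finset V) (fun y => y + s p ∈ ({x} : Finset V))
            rw [Finset.card_singleton] at this
            exact_mod_cast this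
          · rw [if_neg h]
            have : ({x} : Finset V).filter (fun y => y + s p ∈ ({x} : Finset V)) = ∅ := by
              rw [Finset.filter_eq_empty_iff]
              intro y hy
              rw [Finset.mem_singleton] at hy
              rw [hy]; exact h
            rw [this]; simp
        rw [← hcr] at hD
        norm_num at hD
        linarith
      obtain ⟨Y, hY, hYne, hYd⟩ := ih (#(X.erase x)) (by omega) (X.erase x) hne h2 rfl
      exact ⟨Y, hY.trans (Finset.erase_subset _ _), hYne, hYd⟩

/-! ### Subset sums -/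

lemma sum_mem_spn {a : ℕ → V} {T : Finset ℕ} {i : ℕ} (h : ∀ j ∈ T, j < i) :
    ∑ j ∈ T, a j ∈ spn a i := Submodule.sum_mem _ fun j hj => mem_spn (h j hj)

lemma sums_injective {a : ℕ → V} {t : ℕ} (ha : ∀ i < t, a i ∉ spn a i) {T T' : Finset ℕ}
    (hT : T ⊆ Finset.range t) (hT' : T' ⊆ Finset.range t) (h : ∑ i ∈ T, a i = ∑ i ∈ T', a i) :
    T = T' := by
  by_contra hne
  have hsd : (T \ T' ∪ T' \ T).Nonempty := by
    rw [Finset.nonempty_iff_ne_empty]
    intro hemp
    apply hne
    rw [Finset.union_eq_empty] at hemp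
    exact Finset.Subset.antisymm (Finset.sdiff_eq_empty_iff_subset.1 hemp.1)
      (Finset.sdiff_eq_empty_iff_subset.1 hemp.2)
  have h1 : ∑ i ∈ T \ T' ∪ T' \ T, a i = 0 := by
    rw [Finset.sum_union (by
      rw [Finset.disjoint_left]
      intro x hx hx'
      exact (Finset.mem_sdiff.1 hx').2 (Finset.mem_sdiff.1 hx).1)]
    have e1 := Finset.sum_inter_add_sum_sdiff T T' a
    have e2 := Finset.sum_inter_add_sum_sdiff T' T a
    rw [Finset.inter_comm] at e2
    have e3 : ∑ i ∈ T \ T', a i = ∑ i ∈ T' \ T, a i := by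
      apply add_left_cancel (a := ∑ i ∈ T ∩ T', a i)
      rw [e1, e2, h]
    rw [e3, add_self']
  set M := T \ T' ∪ T' \ T with hM
  set i := M.max' hsd with hi
  have hiM : i ∈ M := Finset.max'_mem _ _
  have hit : i < t := by
    rw [hM, Finset.mem_union, Finset.mem_sdiff, Finset.mem_sdiff] at hiM
    rcases hiM with ⟨h2, _⟩ | ⟨h2, _⟩
    · exact Finset.mem_range.1 (hT h2)
    · exact Finset.mem_range.1 (hT' h2)
  apply ha i hit
  have h2 : a i = ∑ j ∈ M.erase i, a j := by
    rw [← Finset.add_sum_erase _ _ hiM] at h1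
    have := (eq_add_iff (a i) (∑ j ∈ M.erase i, a j) 0).1 h1
    rw [add_zero] at this
    exact this.symm
  rw [h2]
  refine sum_mem_spn fun j hj => ?_
  have hj' := Finset.mem_erase.1 hj
  exact lt_of_le_of_ne (Finset.le_max' _ _ hj'.2) hj'.1

end H2CS
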