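import Mathlib
import Pool.Agent.H2CS.Path

set_option autoImplicit false
set_option linter.unusedSectionVars false

open Finset
open scoped Pointwise

namespace H2CS

variable {V : Type} [AddCommGroup V] [Module (ZMod 2) V] [Fintype V] [DecidableEq V]

lemma exists_a {n t : ℕ} (hn : 1 ≤ n) {B : V → Prop} (hG : Good2 n B) {X : Finset V}
    (hX : X.Nonempty) (hI : Ind B X) (hdn : dm X ≤ n) {R : ℝ}
    (hunp : (unp X R : ℝ) ≤ (#X : ℝ) ^ 2 / 10000) (hk : 40 * n ≤ #X) (ht : 5 * t ≤ dm X) :
    ∃ a : ℕ → V, ∀ j < t, a j ∈ core X R ∧ a j ∉ spn a j ∧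
      4 * #((Finset.range j).filter (fun i => (rr X (a i + a j) : ℝ) < R)) ≤ j := by
  refine greedy (W := V) (fun x b y => y ∈ core X R ∧ y ∉ spn x b ∧
      4 * #((Finset.range b).filter (fun i => (rr X (x i + y) : ℝ) < R)) ≤ b) t 0 ?_ ?_
  · intro x x' b y h hQ
    refine ⟨hQ.1, by rw [← spn_congr h]; exact hQ.2.1, ?_⟩
    have : (Finset.range b).filter (fun i => (rr X (x' i + y) : ℝ) < R) =
        (Finset.range b).filter (fun i => (rr X (x i + y) : ℝ) < R) := by
      refine Finset.filter_congr fun i hi => ?_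
      rw [h i (Finset.mem_range.1 hi)]
    rw [this]; exact hQ.2.2
  · intro b hb x hx
    by_contra hcon
    push Not at hcon
    classical
    have hk0 : (0 : ℝ) < #X := by exact_mod_cast hX.card_pos
    set F2 := X.filter (fun y => y ∈ spn x b) with hF2
    set F3 := X.filter (fun y => b < 4 * #((Finset.range b).filter (fun i => (rr X (x i + y) : ℝ) < R)))
      with hF3
    have hcov : X ⊆ (X \ core X R) ∪ (F2 ∪ F3) := by
      intro y hy
      simp only [hF2, hF3, Finset.mem_union, Finset.mem_sdiff, Finset.mem_filter, hy, true_and]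
      by_cases h1 : y ∈ core X R
      · by_cases h2 : y ∈ spn x b
        · right; left; exact h2
        · right; right; exact hcon y h1 h2
      · left; exact h1
    have hc1 : (#(X \ core X R) : ℝ) ≤ #X / 100 := by
      have e1 := card_core hX hunp
      have e2 : (#(X \ core X R) : ℝ) + #(core X R) = #X := by
        exact_mod_cast Finset.card_sdiff_add_card_eq_card (core_subset X R)
      linarith
    have hc2 : (#F2 : ℝ) ≤ #X / 10 := by
      have e1 := inter_small hn hG hI hdn (spn x b) (by have := finrank_spn x b; omega) F2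
        (Finset.filter_subset _ _) (fun y hy => (Finset.mem_filter.1 hy).2)
      have e2 : 10 * #F2 ≤ #X := by omega
      have e3 : (10 : ℝ) * #F2 ≤ #X := by exact_mod_cast e2
      linarith
    have hc3 : (#F3 : ℝ) ≤ #X * (4 / 100) := by
      rcases Nat.eq_zero_or_pos b with h0 | hpos
      · have : F3 = ∅ := by
          rw [hF3, Finset.filter_eq_empty_iff]
          intro y _
          subst h0
          simp
        rw [this, Finset.card_empty]
        push_cast; positivity
      · have e1 : ∑ y ∈ X, #((Finset.range b).filter (fun i => (rr X (x i + y) : ℝ) < R)) =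
            ∑ i ∈ Finset.range b, bad X R (x i) := by
          unfold bad
          simp only [Finset.card_filter]
          rw [Finset.sum_comm]
        have e2 : 100 * ∑ i ∈ Finset.range b, bad X R (x i) ≤ b * #X := by
          rw [Finset.mul_sum]
          calc ∑ i ∈ Finset.range b, 100 * bad X R (x i) ≤ ∑ i ∈ Finset.range b, #X :=
                Finset.sum_le_sum fun i hi =>
                  (Finset.mem_filter.1 (hx i (Finset.mem_range.1 hi)).1).2
            _ = b * #X := by rw [Finset.sum_const, Finset.card_range, smul_eq_mul]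
        have e3 : #F3 * b ≤ 4 * ∑ y ∈ X, #((Finset.range b).filter (fun i => (rr X (x i + y) : ℝ) < R)) := by
          rw [Finset.mul_sum]
          calc #F3 * b = ∑ y ∈ F3, b := by rw [Finset.sum_const, smul_eq_mul]
            _ ≤ ∑ y ∈ F3, 4 * #((Finset.range b).filter (fun i => (rr X (x i + y) : ℝ) < R)) :=
                Finset.sum_le_sum fun y hy => (Finset.mem_filter.1 hy).2.le
            _ ≤ _ := Finset.sum_le_sum_of_subset (Finset.filter_subset _ _)
        rw [e1] at e3
        have e4 : (100 * #F3) * b ≤ (4 * #X) * b := by nlinarith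
        have e5 := Nat.le_of_mul_le_mul_right e4 hpos
        have e6 : (100 : ℝ) * #F3 ≤ 4 * #X := by exact_mod_cast e5
        linarith
    have hc : #X ≤ #(X \ core X R) + (#F2 + #F3) :=
      (Finset.card_le_card hcov).trans ((Finset.card_union_le _ _).trans
        (Nat.add_le_add_left (Finset.card_union_le _ _) _))
    have hcr : (#X : ℝ) ≤ #(X \ core X R) + (#F2 + #F3) := by exact_mod_cast hc
    linarith

/-- The sets reached in `l` steps. -/
noncomputable def reach (a : ℕ → V) (t : ℕ) (Y : Finset V) (x0 : V) (l : ℕ) : Finset (Finset ℕ) :=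
  ((Finset.range t).powersetCard (2 * l)).filter (fun T => x0 + ∑ i ∈ T, a i ∈ Y)

lemma reach_step {a : ℕ → V} {t : ℕ} {Y : Finset V} {x0 : V} {PP : Finset (Σ _ : ℕ, ℕ)}
    (hPP : ∀ p ∈ PP, p.2 < p.1 ∧ p.1 < t) {D1 : ℝ}
    (hdeg : ∀ x ∈ Y, D1 ≤ #(PP.filter (fun p => x + (a p.2 + a p.1) ∈ Y))) (l : ℕ) :
    (#(reach a t Y x0 l) : ℝ) * (D1 - 4 * l * t) ≤
      #(reach a t Y x0 (l + 1)) * ((2 * (l + 1) : ℕ) : ℝ) ^ 2 := by
  set A : Finset ℕ → Finset (Σ _ : ℕ, ℕ) := fun T =>
    PP.filter (fun p => (x0 + ∑ i ∈ T, a i) + (a p.2 + a p.1) ∈ Y ∧ p.1 ∉ T ∧ p.2 ∉ T) with hA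
  have h1 : ∀ T ∈ reach a t Y x0 l, D1 - 4 * l * t ≤ #(A T) := by
    intro T hT
    have hT' := Finset.mem_filter.1 hT
    have hTc := Finset.mem_powersetCard.1 hT'.1
    have e1 := hdeg _ hT'.2
    have e2 : PP.filter (fun p => (x0 + ∑ i ∈ T, a i) + (a p.2 + a p.1) ∈ Y) ⊆
        A T ∪ (PP.filter (fun p => p.1 ∈ T) ∪ PP.filter (fun p => p.2 ∈ T)) := by
      intro p hp
      have hp' := Finset.mem_filter.1 hp
      simp only [hA, Finset.mem_union, Finset.mem_filter, hp'.1, hp'.2, true_and]
      tauto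
    have e3 : #(PP.filter (fun p => p.1 ∈ T)) ≤ #T * t := by
      have hct : #T * t = #(T ×ˢ Finset.range t) := by rw [Finset.card_product, Finset.card_range]
      rw [hct]
      refine Finset.card_le_card_of_injOn (fun p => (p.1, p.2)) ?_ ?_
      · intro p hp
        have hp' := Finset.mem_filter.1 (Finset.mem_coe.1 hp)
        rw [Finset.mem_coe, Finset.mem_product]
        have := hPP p hp'.1
        exact ⟨hp'.2, Finset.mem_range.2 (by simp only; omega)⟩
      · rintro ⟨p1, p2⟩ _ ⟨q1, q2⟩ _ h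
        simp only [Prod.mk.injEq] at h
        obtain ⟨rfl, rfl⟩ := h
        rfl
    have e4 : #(PP.filter (fun p => p.2 ∈ T)) ≤ #T * t := by
      have hct : #T * t = #(T ×ˢ Finset.range t) := by rw [Finset.card_product, Finset.card_range]
      rw [hct]
      refine Finset.card_le_card_of_injOn (fun p => (p.2, p.1)) ?_ ?_
      · intro p hp
        have hp' := Finset.mem_filter.1 (Finset.mem_coe.1 hp)
        rw [Finset.mem_coe, Finset.mem_product]
        have := hPP p hp'.1
        exact ⟨hp'.2, Finset.mem_range.2 (by simp only; omega)⟩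
      · rintro ⟨p1, p2⟩ _ ⟨q1, q2⟩ _ h
        simp only [Prod.mk.injEq] at h
        obtain ⟨rfl, rfl⟩ := h
        rfl
    have e5 : #(PP.filter (fun p => (x0 + ∑ i ∈ T, a i) + (a p.2 + a p.1) ∈ Y)) ≤
        #(A T) + (#T * t + #T * t) :=
      (Finset.card_le_card e2).trans ((Finset.card_union_le _ _).trans
        (Nat.add_le_add_left ((Finset.card_union_le _ _).trans (Nat.add_le_add e3 e4)) _))
    rw [hTc.2] at e5
    have e6 : (#(PP.filter (fun p => (x0 + ∑ i ∈ T, a i) + (a p.2 + a p.1) ∈ Y)) : ℝ) ≤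
        #(A T) + (2 * l * t + 2 * l * t) := by exact_mod_cast e5
    linarith
  have h2 : (#(reach a t Y x0 l) : ℝ) * (D1 - 4 * l * t) ≤ #((reach a t Y x0 l).sigma A) := by
    rw [Finset.card_sigma]
    push_cast
    rw [← nsmul_eq_mul, ← Finset.sum_const]
    exact Finset.sum_le_sum h1
  have h3 : #((reach a t Y x0 l).sigma A) ≤
      #((reach a t Y x0 (l + 1)).sigma (fun T' => T' ×ˢ T')) := by
    refine Finset.card_le_card_of_injOn
      (fun q => ⟨insert q.2.1 (insert q.2.2 q.1), (q.2.1, q.2.2)⟩) ?_ ?_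
    · rintro ⟨T, p⟩ hq
      rw [Finset.mem_coe, Finset.mem_sigma] at hq
      obtain ⟨hT, hp⟩ := hq
      simp only at hT hp
      have hT' := Finset.mem_filter.1 hT
      have hTc := Finset.mem_powersetCard.1 hT'.1
      have hp' := Finset.mem_filter.1 hp
      have hpp := hPP p hp'.1
      have hne : p.1 ≠ p.2 := by omega
      have hn1 : p.1 ∉ insert p.2 T := by
        rw [Finset.mem_insert]; push Not; exact ⟨hne, hp'.2.2.1⟩
      rw [Finset.mem_coe, Finset.mem_sigma]
      simp only
      refine ⟨?_, ?_⟩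
      · refine Finset.mem_filter.2 ⟨Finset.mem_powersetCard.2 ⟨?_, ?_⟩, ?_⟩
        · intro i hi
          rw [Finset.mem_insert, Finset.mem_insert] at hi
          rcases hi with rfl | rfl | hi
          · exact Finset.mem_range.2 hpp.2
          · exact Finset.mem_range.2 (by omega)
          · exact hTc.1 hi
        · rw [Finset.card_insert_of_notMem hn1, Finset.card_insert_of_notMem hp'.2.2.2, hTc.2]
          ring
        · rw [Finset.sum_insert hn1, Finset.sum_insert hp'.2.2.2]
          have := hp'.2.1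
          have e : x0 + (a p.1 + (a p.2 + ∑ i ∈ T, a i)) = (x0 + ∑ i ∈ T, a i) + (a p.2 + a p.1) := by
            abel
          rw [e]; exact this
      · rw [Finset.mem_product]
        simp
    · rintro ⟨T, ⟨p1, p2⟩⟩ hq ⟨T', ⟨q1, q2⟩⟩ hq' h
      rw [Finset.mem_coe, Finset.mem_sigma] at hq hq'
      simp only [Sigma.mk.injEq, heq_eq_eq, Prod.mk.injEq] at h
      obtain ⟨h1, rfl, rfl⟩ := h
      have e1 := (Finset.mem_filter.1 hq.2).2.2
      have e2 := (Finset.mem_filter.1 hq'.2).2.2
      simp only at e1 e2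
      have e3 := hPP _ (Finset.mem_filter.1 hq.2).1
      simp only at e3
      have hT : T = T' := by
        ext i
        have := Finset.ext_iff.1 h1 i
        simp only [Finset.mem_insert] at this
        constructor
        · intro hi
          rcases this.1 (Or.inr (Or.inr hi)) with rfl | rfl | h
          · exact absurd hi e1.1
          · exact absurd hi e1.2
          · exact h
        · intro hi
          rcases this.2 (Or.inr (Or.inr hi)) with rfl | rfl | h
          · exact absurd hi e2.1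
          · exact absurd hi e2.2
          · exact h
      rw [hT]
  have h4 : #((reach a t Y x0 (l + 1)).sigma (fun T' => T' ×ˢ T')) =
      #(reach a t Y x0 (l + 1)) * (2 * (l + 1)) ^ 2 := by
    rw [Finset.card_sigma]
    rw [Finset.sum_congr rfl (g := fun _ => (2 * (l + 1)) ^ 2)]
    · rw [Finset.sum_const, smul_eq_mul]
    · intro T hT
      have hTc := Finset.mem_powersetCard.1 (Finset.mem_filter.1 hT).1
      rw [Finset.card_product, hTc.2, sq]
  refine h2.trans ?_
  have h5 : (#((reach a t Y x0 l).sigma A) : ℝ) ≤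
      ((#(reach a t Y x0 (l + 1)) * (2 * (l + 1)) ^ 2 : ℕ) : ℝ) := by
    rw [← h4]; exact_mod_cast h3
  refine h5.trans (le_of_eq ?_)
  push_cast
  ring

lemma path_count {a : ℕ → V} {t L : ℕ} (ha : ∀ i < t, a i ∉ spn a i) {Y : Finset V} {x0 : V}
    (hx0 : x0 ∈ Y) {PP : Finset (Σ _ : ℕ, ℕ)}
    (hPP : ∀ p ∈ PP, p.2 < p.1 ∧ p.1 < t) {D1 : ℝ} (hD1 : 8 * (L : ℝ) * t ≤ D1) (hL : 1 ≤ L)
    (hdeg : ∀ x ∈ Y, D1 ≤ #(PP.filter (fun p => x + (a p.2 + a p.1) ∈ Y))) :
    ((t : ℝ) / L) ^ L ≤ #Y := by
  have hLr : (1 : ℝ) ≤ L := by exact_mod_cast hL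
  have h1 : ∀ l ≤ L, ((t : ℝ) / L) ^ l ≤ #(reach a t Y x0 l) := by
    intro l
    induction l with
    | zero =>
      intro _
      have : reach a t Y x0 0 = {∅} := by
        unfold reach
        rw [mul_zero, Finset.powersetCard_zero, Finset.filter_singleton]
        simp [hx0]
      rw [this]; simp
    | succ l ih =>
      intro hl
      have h2 := ih (by omega)
      have h3 := reach_step (x0 := x0) hPP hdeg l
      have hlL : (l : ℝ) + 1 ≤ L := by exact_mod_cast hl
      have ht0 : (0 : ℝ) ≤ t := by positivity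
      have h4 : 4 * (L : ℝ) * t ≤ D1 - 4 * l * t := by nlinarith
      have h5 : (#(reach a t Y x0 l) : ℝ) * (4 * (L : ℝ) * t) ≤
          #(reach a t Y x0 (l + 1)) * (4 * (L : ℝ) ^ 2) := by
        refine (mul_le_mul_of_nonneg_left h4 (by positivity)).trans (h3.trans ?_)
        refine mul_le_mul_of_nonneg_left ?_ (by positivity)
        push_cast
        nlinarith
      have h6 : (#(reach a t Y x0 l) : ℝ) * ((t : ℝ) / L) ≤ #(reach a t Y x0 (l + 1)) := by
        rw [mul_div_assoc', div_le_iff₀ (by positivity)]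
        have h7 : (4 * (L : ℝ)) * (#(reach a t Y x0 l) * t) ≤ (4 * (L : ℝ)) * (#(reach a t Y x0 (l + 1)) * L) := by
          nlinarith
        exact le_of_mul_le_mul_left h7 (by positivity)
      rw [pow_succ]
      exact (mul_le_mul_of_nonneg_right h2 (by positivity)).trans h6
  refine (h1 L le_rfl).trans ?_
  have h2 : #(reach a t Y x0 L) ≤ #Y := by
    refine Finset.card_le_card_of_injOn (fun T => x0 + ∑ i ∈ T, a i) ?_ ?_
    · intro T hT
      exact Finset.mem_coe.2 (Finset.mem_filter.1 (Finset.mem_coe.1 hT)).2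
    · intro T hT T' hT' h
      have e1 := (Finset.mem_powersetCard.1 (Finset.mem_filter.1 (Finset.mem_coe.1 hT)).1).1
      have e2 := (Finset.mem_powersetCard.1 (Finset.mem_filter.1 (Finset.mem_coe.1 hT')).1).1
      exact sums_injective ha e1 e2 (add_left_cancel h)
  exact_mod_cast h2

/-- High rank is impossible. -/
lemma high_rank {n t L : ℕ} (hn : 1 ≤ n) {B : V → Prop} (hG : Good2 n B) {X : Finset V}
    (hX : X.Nonempty) (hI : Ind B X) (hdn : dm X ≤ n) {R : ℝ} (hR : 0 < R)
    (hunp : (unp X R : ℝ) ≤ (#X : ℝ) ^ 2 / 10000) (hk : 40 * n ≤ #X) (ht : 5 * t ≤ dm X)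
    (ht3 : 3 ≤ t) (hL : 1 ≤ L) (hLt : 64 * (#X : ℝ) * L ≤ t * R) :
    ((t : ℝ) / L) ^ L ≤ #X := by
  obtain ⟨a, ha⟩ := exists_a hn hG hX hI hdn hunp hk ht
  have hk0 : (0 : ℝ) < #X := by exact_mod_cast hX.card_pos
  have ht0 : (3 : ℝ) ≤ t := by exact_mod_cast ht3
  set PP : Finset (Σ _ : ℕ, ℕ) := (Finset.range t).sigma
    (fun j => (Finset.range j).filter (fun i => R ≤ (rr X (a i + a j) : ℝ))) with hPP
  have hPPm : ∀ p ∈ PP, (p.2 < p.1 ∧ p.1 < t) ∧ R ≤ (rr X (a p.2 + a p.1) : ℝ) := by
    intro p hp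
    rw [hPP, Finset.mem_sigma] at hp
    have h2 := Finset.mem_filter.1 hp.2
    exact ⟨⟨Finset.mem_range.1 h2.1, Finset.mem_range.1 hp.1⟩, h2.2⟩
  have hPPc : (t : ℝ) ^ 2 / 4 ≤ #PP := by
    rw [hPP, Finset.card_sigma]
    push_cast
    have e1 : ∀ j ∈ Finset.range t, (3 / 4) * (j : ℝ) ≤
        #((Finset.range j).filter (fun i => R ≤ (rr X (a i + a j) : ℝ))) := by
      intro j hj
      have e2 := (ha j (Finset.mem_range.1 hj)).2.2
      have e3 : #(Finset.range j) = #((Finset.range j).filter (fun i => (rr X (a i + a j) : ℝ) < R)) +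
          #((Finset.range j).filter (fun i => ¬ (rr X (a i + a j) : ℝ) < R)) :=
        (Finset.card_filter_add_card_filter_not _).symm
      simp only [not_lt] at e3
      rw [Finset.card_range] at e3
      have e4 : 3 * j ≤ 4 * #((Finset.range j).filter (fun i => R ≤ (rr X (a i + a j) : ℝ))) := by omega
      have e5 : (3 : ℝ) * j ≤ 4 * #((Finset.range j).filter (fun i => R ≤ (rr X (a i + a j) : ℝ))) := by
        exact_mod_cast e4
      linarith
    refine le_trans ?_ (Finset.sum_le_sum e1)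
    rw [← Finset.mul_sum]
    have e6 : (∑ j ∈ Finset.range t, (j : ℝ)) = t * (t - 1) / 2 := by
      have := Finset.sum_range_id_mul_two t
      have h2 : ((∑ i ∈ Finset.range t, i : ℕ) : ℝ) * 2 = t * ((t - 1 : ℕ) : ℝ) := by exact_mod_cast this
      rw [Nat.cast_sub (by omega)] at h2
      push_cast at h2
      linarith
    rw [e6]
    nlinarith
  have hD : ((t : ℝ) ^ 2 * R / (4 * #X)) * #X ≤ ∑ p ∈ PP, (rr X (a p.2 + a p.1) : ℝ) := by
    have e1 : ∑ p ∈ PP, R ≤ ∑ p ∈ PP, (rr X (a p.2 + a p.1) : ℝ) :=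
      Finset.sum_le_sum fun p hp => (hPPm p hp).2
    rw [Finset.sum_const, nsmul_eq_mul] at e1
    refine le_trans ?_ e1
    have e2 : ((t : ℝ) ^ 2 * R / (4 * #X)) * #X = (t : ℝ) ^ 2 / 4 * R := by field_simp
    rw [e2]
    exact mul_le_mul_of_nonneg_right hPPc hR.le
  obtain ⟨Y, hYX, ⟨x0, hx0⟩, hY⟩ := mindeg PP (fun p => a p.2 + a p.1) X hX
    ((t : ℝ) ^ 2 * R / (4 * #X)) (by positivity) hD
  have hfin := path_count (L := L) (fun i hi => (ha i hi).2.1) hx0 (fun p hp => (hPPm p hp).1)
    (D1 := (t : ℝ) ^ 2 * R / (4 * #X) / 2) ?_ hL hY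
  · refine hfin.trans ?_
    exact_mod_cast Finset.card_le_card hYX
  · rw [le_div_iff₀ (by norm_num), le_div_iff₀ (by positivity)]
    nlinarith

end H2CS
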