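import Mathlib
import Pool.Agent.H2CS.Path2

set_option autoImplicit false
set_option linter.unusedSectionVars false

open Finset
open scoped Pointwise

namespace H2CS

variable {V : Type} [AddCommGroup V] [Module (ZMod 2) V] [Fintype V] [DecidableEq V]

open Classical in
/-- The elements of a submodule. -/
noncomputable def elts (U : Submodule (ZMod 2) V) : Finset V := univ.filter (fun x => x ∈ U)

lemma mem_elts {U : Submodule (ZMod 2) V} {x : V} : x ∈ elts U ↔ x ∈ U := by
  simp [elts]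

lemma natCard_sub (U : Submodule (ZMod 2) V) :
    Nat.card U = 2 ^ Module.finrank (ZMod 2) U := by
  classical
  rw [Nat.card_eq_fintype_card, Module.card_eq_pow_finrank (K := ZMod 2), ZMod.card]

lemma card_elts (U : Submodule (ZMod 2) V) : #(elts U) = 2 ^ Module.finrank (ZMod 2) U := by
  classical
  rw [← natCard_sub, Nat.card_eq_fintype_card, Fintype.card_subtype]
  rfl

lemma neg_self' (x : V) : -x = x := by
  rw [neg_eq_iff_add_eq_zero]; exact add_self' x

lemma rank_bound (X : Finset V) (hX : X.Nonempty) (K : ℝ) (c : ℕ)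
    (hK : (#(X + X) : ℝ) ≤ K * #X) (hc : K ^ 4 ≤ c) :
    (2 : ℝ) ^ dm X ≤ 2 ^ c * #(X + X) := by
  have hk0 : (0 : ℝ) < #X := by exact_mod_cast hX.card_pos
  have h4 : (#(4 • X) : ℝ) ≤ ((#(X + X) : ℝ) / #X) ^ 4 * #X := by
    have := Finset.pluennecke_ruzsa_inequality_nsmul_add hX X 4
    have h := (NNRat.cast_le (K := ℝ)).2 this
    push_cast at h
    exact h
  have h4' : (#(3 • X + X) : ℝ) ≤ (c : ℝ) * #X := by
    have e1 : 3 • X + X = 4 • X := (succ_nsmul X 3).symm
    rw [e1]
    refine h4.trans (mul_le_mul_of_nonneg_right ?_ hk0.le)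
    refine le_trans ?_ hc
    refine pow_le_pow_left₀ (by positivity) ?_ 4
    rwa [div_le_iff₀ hk0]
  obtain ⟨F, hF, hFc, hcov⟩ := Finset.ruzsa_covering_add hX h4'
  set W := Submodule.span (ZMod 2) (F : Set V) with hW
  have key : ∀ v ∈ Submodule.span (ZMod 2) (X : Set V), ∀ w ∈ W, ∀ a ∈ X, ∀ b ∈ X,
      ∃ w' ∈ W, ∃ a' ∈ X, ∃ b' ∈ X, v + (w + (a + b)) = w' + (a' + b') := by
    intro v hv
    induction hv using Submodule.span_induction with
    | mem x hx =>
      intro w hw a ha b hb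
      have h1 : x + a + b ∈ 3 • X := by
        have e1 : 3 • X = X + X + X := by
          rw [succ_nsmul, two_nsmul]
        rw [e1]
        exact Finset.add_mem_add (Finset.add_mem_add hx ha) hb
      have h2 := hcov h1
      rw [Finset.mem_add] at h2
      obtain ⟨f, hf, g, hg, hfg⟩ := h2
      rw [Finset.mem_sub] at hg
      obtain ⟨c', hc', d', hd', rfl⟩ := hg
      refine ⟨w + f, W.add_mem hw (Submodule.subset_span hf), c', hc', d', hd', ?_⟩
      have e2 : c' - d' = c' + d' := by rw [sub_eq_add_neg, neg_self']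
      rw [e2] at hfg
      calc x + (w + (a + b)) = w + (x + a + b) := by abel
        _ = w + (f + (c' + d')) := by rw [hfg]
        _ = _ := by rw [add_assoc]
    | zero =>
      intro w hw a ha b hb
      exact ⟨w, hw, a, ha, b, hb, by rw [zero_add]⟩
    | add x y _ _ ihx ihy =>
      intro w hw a ha b hb
      obtain ⟨w1, hw1, a1, ha1, b1, hb1, e1⟩ := ihy w hw a ha b hb
      obtain ⟨w2, hw2, a2, ha2, b2, hb2, e2⟩ := ihx w1 hw1 a1 ha1 b1 hb1
      exact ⟨w2, hw2, a2, ha2, b2, hb2, by rw [add_assoc, e1, e2]⟩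
    | smul c x _ ih =>
      intro w hw a ha b hb
      have hc01 : c = 0 ∨ c = 1 := by
        revert c; decide
      rcases hc01 with rfl | rfl
      · rw [zero_smul]
        exact ⟨w, hw, a, ha, b, hb, by rw [zero_add]⟩
      · rw [one_smul]
        exact ih w hw a ha b hb
  obtain ⟨x0, hx0⟩ := hX
  have hsub : elts (Submodule.span (ZMod 2) (X : Set V)) ⊆ elts W + (X + X) := by
    intro v hv
    rw [mem_elts] at hv
    obtain ⟨w, hw, a, ha, b, hb, e⟩ := key v hv 0 W.zero_mem x0 hx0 x0 hx0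
    rw [add_self', zero_add, add_zero] at e
    rw [e]
    exact Finset.add_mem_add (mem_elts.2 hw) (Finset.add_mem_add ha hb)
  have h5 := (Finset.card_le_card hsub).trans Finset.card_add_le
  rw [card_elts, card_elts] at h5
  have h6 : Module.finrank (ZMod 2) W ≤ c := by
    refine (finrank_span_finset_le_card F).trans ?_
    exact_mod_cast hFc
  have h7 : 2 ^ dm X ≤ 2 ^ c * #(X + X) :=
    h5.trans (Nat.mul_le_mul_right _ (Nat.pow_le_pow_right (by norm_num) h6))
  exact_mod_cast h7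

/-- Rank bound for the core. -/
lemma low_rank {X : Finset V} (hX : X.Nonempty) {R γ : ℝ} (hγ : 0 < γ) (hRγ : γ * #X ≤ R)
    (hunp : (unp X R : ℝ) ≤ (#X : ℝ) ^ 2 / 10000) (c : ℕ) (hc : (2 / γ ^ 2) ^ 4 ≤ c) :
    (2 : ℝ) ^ dm (core X R) ≤ 2 ^ c * ((2 / γ ^ 2) * #X) := by
  have hk0 : (0 : ℝ) < #X := by exact_mod_cast hX.card_pos
  have hR : 0 < R := lt_of_lt_of_le (by positivity) hRγ
  have h1 := card_core hX hunp
  have h2 := card_core_add X R
  have h3 := card_Spop X R
  have hne : (core X R).Nonempty := by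
    rw [← Finset.card_pos]
    have : (0 : ℝ) < #(core X R) := by linarith
    exact_mod_cast this
  have h4 : (#(Spop X R) : ℝ) ≤ #X / γ := by
    rw [le_div_iff₀ hγ]
    have e1 : (#(Spop X R) : ℝ) * (γ * #X) ≤ (#X : ℝ) ^ 2 :=
      (mul_le_mul_of_nonneg_left hRγ (by positivity)).trans h3
    have e2 : (#(Spop X R) : ℝ) * γ * #X ≤ #X * #X := by nlinarith
    exact le_of_mul_le_mul_right e2 hk0
  have h5 : (#(Spop X R) : ℝ) ^ 2 ≤ (#X / γ) ^ 2 := pow_le_pow_left₀ (by positivity) h4 2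
  have h6 : (#(core X R + core X R) : ℝ) * (98 / 100) ≤ #X / γ ^ 2 := by
    have e1 : (#(core X R + core X R) : ℝ) * (98 / 100) * #X ≤ #X / γ ^ 2 * #X := by
      calc _ = (#(core X R + core X R) : ℝ) * ((98 / 100) * #X) := by ring
        _ ≤ (#X / γ) ^ 2 := h2.trans h5
        _ = _ := by field_simp
    exact le_of_mul_le_mul_right e1 hk0
  have hγ2 : 0 < 1 / γ ^ 2 := by positivity
  have h7 : (#(core X R + core X R) : ℝ) ≤ (2 / γ ^ 2) * #(core X R) := by
    have e1 : (#X : ℝ) / γ ^ 2 = (1 / γ ^ 2) * #X := by ring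
    have e2 : (2 / γ ^ 2) * (#(core X R) : ℝ) = 2 * ((1 / γ ^ 2) * #(core X R)) := by ring
    rw [e1] at h6
    rw [e2]
    have e3 : (1 / γ ^ 2) * ((99 / 100) * (#X : ℝ)) ≤ (1 / γ ^ 2) * #(core X R) :=
      mul_le_mul_of_nonneg_left h1 hγ2.le
    nlinarith
  have h8 := rank_bound (core X R) hne (2 / γ ^ 2) c h7 hc
  refine h8.trans (mul_le_mul_of_nonneg_left (h7.trans ?_) (by positivity))
  have : (#(core X R) : ℝ) ≤ #X := by exact_mod_cast Finset.card_le_card (core_subset X R)
  exact mul_le_mul_of_nonneg_left this (by positivity)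

end H2CS
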