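import Mathlib
import Pool.Agent.H2BC.Prob
import Pool.Agent.H2CS.Low

set_option autoImplicit false
set_option linter.unusedSectionVars false

open Finset
open scoped Pointwise

namespace H2CS

open H2BC

variable {V : Type} [AddCommGroup V] [Module (ZMod 2) V] [Fintype V] [DecidableEq V]

/-- The subspaces of dimension `m`. -/
noncomputable def subs (V : Type) [AddCommGroup V] [Module (ZMod 2) V] [Fintype V] (m : ℕ) :
    Finset (Submodule (ZMod 2) V) :=
  (Set.toFinite {K : Submodule (ZMod 2) V | Module.finrank (ZMod 2) K = m}).toFinset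

lemma mem_subs {m : ℕ} {K : Submodule (ZMod 2) V} :
    K ∈ subs V m ↔ Module.finrank (ZMod 2) K = m := by
  unfold subs
  rw [Set.Finite.mem_toFinset]
  rfl

open Classical in
lemma card_fiber {m : ℕ} (K : Submodule (ZMod 2) V) (hK : Module.finrank (ZMod 2) K = m) :
    #((univ.filter (fun s : Fin m → V => LinearIndependent (ZMod 2) s)).filter
      (fun s => Submodule.span (ZMod 2) (Set.range s) = K)) = ∏ i : Fin m, (2 ^ m - 2 ^ (i : ℕ)) := by
  have h1 := card_linearIndependent (K := ZMod 2) (V := K) (k := m) (by rw [hK])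
  rw [ZMod.card, hK] at h1
  rw [← h1, Nat.card_eq_fintype_card, Fintype.card_subtype]
  symm
  refine Finset.card_bij (fun s _ => fun i => (s i : V)) ?_ ?_ ?_
  · intro s hs
    have hs' := (Finset.mem_filter.1 hs).2
    have hli : LinearIndependent (ZMod 2) (fun i => (s i : V)) :=
      hs'.map' K.subtype K.ker_subtype
    refine Finset.mem_filter.2 ⟨Finset.mem_filter.2 ⟨Finset.mem_univ _, hli⟩, ?_⟩
    refine Submodule.eq_of_le_of_finrank_eq ?_ ?_
    · rw [Submodule.span_le]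
      rintro _ ⟨i, rfl⟩
      exact (s i).2
    · rw [finrank_span_eq_card hli, Fintype.card_fin, hK]
  · intro s _ s' _ h
    funext i
    exact Subtype.ext (congrFun h i)
  · intro s hs
    have hs' := Finset.mem_filter.1 hs
    have hli := (Finset.mem_filter.1 hs'.1).2
    have hmem : ∀ i, s i ∈ K := by
      intro i
      rw [← hs'.2]
      exact Submodule.subset_span ⟨i, rfl⟩
    refine ⟨fun i => ⟨s i, hmem i⟩, Finset.mem_filter.2 ⟨Finset.mem_univ _, ?_⟩, rfl⟩
    exact LinearIndependent.of_comp K.subtype hli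

lemma count_eq {n m : ℕ} (hV : Module.finrank (ZMod 2) V = n) (hmn : m ≤ n) :
    ∏ i : Fin m, (2 ^ n - 2 ^ (i : ℕ)) = #(subs V m) * ∏ i : Fin m, (2 ^ m - 2 ^ (i : ℕ)) := by
  classical
  have h1 := card_linearIndependent (K := ZMod 2) (V := V) (k := m) (by rw [hV]; exact hmn)
  rw [ZMod.card, hV] at h1
  rw [← h1, Nat.card_eq_fintype_card, Fintype.card_subtype]
  rw [Finset.card_eq_sum_card_fiberwise (f := fun s => Submodule.span (ZMod 2) (Set.range s))
    (t := subs V m)]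
  · rw [Finset.sum_congr rfl fun K hK => card_fiber K (mem_subs.1 hK)]
    rw [Finset.sum_const, smul_eq_mul]
  · intro s hs
    have hli := (Finset.mem_filter.1 (Finset.mem_coe.1 hs)).2
    rw [Finset.mem_coe, mem_subs, finrank_span_eq_card hli, Fintype.card_fin]

lemma g_pos (m : ℕ) : 0 < ∏ i : Fin m, (2 ^ m - 2 ^ (i : ℕ)) := by
  refine Finset.prod_pos fun i _ => ?_
  have : 2 ^ (i : ℕ) < 2 ^ m := Nat.pow_lt_pow_right (by norm_num) i.2
  omega

lemma subs_lower {n m : ℕ} (hV : Module.finrank (ZMod 2) V = n) (hmn : m ≤ n) :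
    2 ^ ((n - m) * m) ≤ #(subs V m) := by
  have h1 := count_eq hV hmn
  have h2 : 2 ^ ((n - m) * m) * ∏ i : Fin m, (2 ^ m - 2 ^ (i : ℕ)) ≤
      #(subs V m) * ∏ i : Fin m, (2 ^ m - 2 ^ (i : ℕ)) := by
    rw [← h1]
    have e1 : 2 ^ ((n - m) * m) = ∏ i : Fin m, 2 ^ (n - m) := by
      rw [Finset.prod_const, Finset.card_univ, Fintype.card_fin, pow_mul]
    rw [e1, ← Finset.prod_mul_distrib]
    refine Finset.prod_le_prod' fun i _ => ?_
    rw [Nat.mul_sub, ← pow_add, Nat.sub_add_cancel hmn]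
    refine Nat.sub_le_sub_left ?_ _
    exact Nat.le_mul_of_pos_left _ (by positivity)
  exact Nat.le_of_mul_le_mul_right h2 (g_pos m)

lemma prod_half (m : ℕ) (hm : 1 ≤ m) :
    (1 : ℝ) / 4 + (1 / 2) ^ (m + 1) ≤ ∏ j ∈ Finset.range m, (1 - (1 / 2 : ℝ) ^ (j + 1)) := by
  induction m with
  | zero => omega
  | succ m ih =>
    rcases Nat.eq_zero_or_pos m with h0 | hpos
    · subst h0; norm_num
    · have h1 := ih hpos
      rw [Finset.prod_range_succ]
      have h2 : (0 : ℝ) < (1 / 2) ^ (m + 1) := by positivity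
      have h3 : ((1 : ℝ) / 2) ^ (m + 1) ≤ 1 / 4 := by
        calc ((1 : ℝ) / 2) ^ (m + 1) ≤ (1 / 2) ^ 2 :=
              pow_le_pow_of_le_one (by norm_num) (by norm_num) (by omega)
          _ = 1 / 4 := by norm_num
      have h4 : ((1 : ℝ) / 2) ^ (m + 1 + 1) = (1 / 2) ^ (m + 1) / 2 := by rw [pow_succ]; ring
      set u : ℝ := (1 / 2) ^ (m + 1) with hu
      rw [h4]
      calc (1 : ℝ) / 4 + u / 2 ≤ (1 / 4 + u) * (1 - u) := by nlinarith
        _ ≤ _ := mul_le_mul_of_nonneg_right h1 (by linarith)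

lemma g_lower (m : ℕ) (hm : 1 ≤ m) :
    (2 : ℝ) ^ (m * m) / 4 ≤ ((∏ i : Fin m, (2 ^ m - 2 ^ (i : ℕ)) : ℕ) : ℝ) := by
  have h1 : ((∏ i : Fin m, (2 ^ m - 2 ^ (i : ℕ)) : ℕ) : ℝ) =
      ∏ i ∈ Finset.range m, ((2 : ℝ) ^ m - 2 ^ i) := by
    rw [Finset.prod_range (fun i => (2 : ℝ) ^ m - 2 ^ i)]
    push_cast
    refine Finset.prod_congr rfl fun i _ => ?_
    rw [Nat.cast_sub (Nat.pow_le_pow_right (by norm_num) i.2.le)]
    push_cast; ring
  rw [h1]
  have h2 : ∏ i ∈ Finset.range m, ((2 : ℝ) ^ m - 2 ^ i) =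
      2 ^ (m * m) * ∏ i ∈ Finset.range m, (1 - (1 / 2 : ℝ) ^ (m - 1 - i + 1)) := by
    have e1 : (2 : ℝ) ^ (m * m) = ∏ i ∈ Finset.range m, (2 : ℝ) ^ m := by
      rw [Finset.prod_const, Finset.card_range, pow_mul]
    rw [e1, ← Finset.prod_mul_distrib]
    refine Finset.prod_congr rfl fun i hi => ?_
    have hi' := Finset.mem_range.1 hi
    have e2 : m - 1 - i + 1 = m - i := by omega
    have e3 : (2 : ℝ) ^ m = 2 ^ (m - i) * 2 ^ i := by rw [← pow_add]; congr 1; omega
    rw [e2, e3, one_div, inv_pow]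
    field_simp
  rw [h2, Finset.prod_range_reflect (fun j => (1 - (1 / 2 : ℝ) ^ (j + 1))) m]
  have h3 := prod_half m hm
  have h4 : (0 : ℝ) < (1 / 2) ^ (m + 1) := by positivity
  rw [div_eq_mul_one_div]
  exact mul_le_mul_of_nonneg_left (by linarith) (by positivity)

lemma subs_upper {n m : ℕ} (hV : Module.finrank (ZMod 2) V = n) (hmn : m ≤ n) (hm : 1 ≤ m) :
    (#(subs V m) : ℝ) ≤ 4 * 2 ^ ((n - m) * m) := by
  have h1 := count_eq hV hmn
  have h2 : ∏ i : Fin m, (2 ^ n - 2 ^ (i : ℕ)) ≤ 2 ^ (n * m) := by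
    calc ∏ i : Fin m, (2 ^ n - 2 ^ (i : ℕ)) ≤ ∏ i : Fin m, 2 ^ n :=
          Finset.prod_le_prod' fun i _ => Nat.sub_le _ _
      _ = _ := by rw [Finset.prod_const, Finset.card_univ, Fintype.card_fin, pow_mul]
  rw [h1] at h2
  have h3 : (#(subs V m) : ℝ) * ((∏ i : Fin m, (2 ^ m - 2 ^ (i : ℕ)) : ℕ) : ℝ) ≤ 2 ^ (n * m) := by
    exact_mod_cast h2
  have h4 := g_lower m hm
  have h5 : (#(subs V m) : ℝ) * (2 ^ (m * m) / 4) ≤ 2 ^ (n * m) :=
    (mul_le_mul_of_nonneg_left h4 (by positivity)).trans h3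
  have h6 : (2 : ℝ) ^ (n * m) = 2 ^ ((n - m) * m) * 2 ^ (m * m) := by
    rw [← pow_add]; congr 1
    rw [← Nat.add_mul, Nat.sub_add_cancel hmn]
  rw [h6] at h5
  have h7 : (#(subs V m) : ℝ) * 2 ^ (m * m) ≤ (4 * 2 ^ ((n - m) * m)) * 2 ^ (m * m) := by nlinarith
  exact le_of_mul_le_mul_right h7 (by positivity)

/-- Number of subspaces meeting a given one in dimension `j`. -/
lemma count_inter {n m j : ℕ} (hV : Module.finrank (ZMod 2) V = n) (K : Submodule (ZMod 2) V)
    (hK : Module.finrank (ZMod 2) K = m) (hj : j ≤ m) :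
    #((subs V m).filter (fun K' => Module.finrank (ZMod 2) (K ⊓ K' : Submodule (ZMod 2) V) = j)) ≤
      2 ^ (m * j + n * (m - j)) := by
  classical
  have hsub : (subs V m).filter (fun K' => Module.finrank (ZMod 2) (K ⊓ K' : Submodule (ZMod 2) V) = j) ⊆
      (univ : Finset ((Fin j → K) × (Fin (m - j) → V))).image
        (fun p => Submodule.span (ZMod 2) (Set.range (fun i => (p.1 i : V))) ⊔
          Submodule.span (ZMod 2) (Set.range p.2)) := by
    intro K' hK'
    have hK'2 := Finset.mem_filter.1 hK'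
    have hK'm := mem_subs.1 hK'2.1
    obtain ⟨C0, hC0⟩ := Submodule.exists_isCompl (K ⊓ K')
    set W := K ⊓ K' with hW
    set C := C0 ⊓ K' with hC
    have hWC : W ⊔ C = K' := by
      rw [hC, ← sup_inf_assoc_of_le C0 (inf_le_right : W ≤ K'), hC0.sup_eq_top, top_inf_eq]
    have hdisj : W ⊓ C = ⊥ := by
      rw [hC, ← inf_assoc, hC0.inf_eq_bot, bot_inf_eq]
    have hfr := Submodule.finrank_sup_add_finrank_inf_eq W C
    rw [hWC, hdisj, finrank_bot, hK'm, hK'2.2] at hfr
    have hCr : Module.finrank (ZMod 2) C = m - j := by omega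
    obtain ⟨u, hu⟩ := exists_basis W
    obtain ⟨v, hv⟩ := exists_basis C
    have hWj : Module.finrank (ZMod 2) W = j := hK'2.2
    rw [Finset.mem_image]
    have humem : ∀ i, u i ∈ K := by
      intro i
      have : u i ∈ W := by rw [← hu]; exact Submodule.subset_span ⟨i, rfl⟩
      exact (Submodule.mem_inf.1 this).1
    refine ⟨(fun i => ⟨u (Fin.cast hWj.symm i), humem _⟩, fun i => v (Fin.cast hCr.symm i)),
      Finset.mem_univ _, ?_⟩
    have e1 : Set.range (fun i : Fin j => u (Fin.cast hWj.symm i)) = Set.range u := by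
      ext x
      constructor
      · rintro ⟨i, rfl⟩; exact ⟨_, rfl⟩
      · rintro ⟨i, rfl⟩; exact ⟨Fin.cast hWj i, rfl⟩
    have e2 : Set.range (fun i : Fin (m - j) => v (Fin.cast hCr.symm i)) = Set.range v := by
      ext x
      constructor
      · rintro ⟨i, rfl⟩; exact ⟨_, rfl⟩
      · rintro ⟨i, rfl⟩; exact ⟨Fin.cast hCr i, rfl⟩
    simp only
    rw [e1, e2, hu, hv, hWC]
  refine (Finset.card_le_card hsub).trans (Finset.card_image_le.trans ?_)
  have hcV : Fintype.card V = 2 ^ n := by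
    rw [Module.card_eq_pow_finrank (K := ZMod 2), ZMod.card, hV]
  have hcK : Fintype.card K = 2 ^ m := by
    rw [Module.card_eq_pow_finrank (K := ZMod 2), ZMod.card, hK]
  rw [Finset.card_univ, Fintype.card_prod, Fintype.card_fun, Fintype.card_fun, hcV, hcK,
    Fintype.card_fin, Fintype.card_fin, ← pow_mul, ← pow_mul, ← pow_add]

end H2CS
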