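import Mathlib
import Pool.Agent.H2CS.Low

set_option autoImplicit false
set_option linter.unusedSectionVars false

open Finset
open scoped Pointwise

namespace H2CS

variable {V : Type} [AddCommGroup V] [Module (ZMod 2) V] [Fintype V] [DecidableEq V]

lemma dm_pos {X : Finset V} (h : 2 ≤ #X) : 1 ≤ dm X := by
  by_contra hcon
  have h0 : dm X = 0 := by omega
  unfold dm at h0
  rw [Submodule.finrank_eq_zero] at h0
  have h1 : X ⊆ {0} := by
    intro x hx
    have : x ∈ Submodule.span (ZMod 2) (X : Set V) := Submodule.subset_span hx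
    rw [h0, Submodule.mem_bot] at this
    simp [this]
  have h2 := Finset.card_le_card h1
  rw [Finset.card_singleton] at h2
  omega

/-- Few popular sums when the rank is small. -/
lemma few_popular {n m c0 : ℕ} (hn : 1 ≤ n) {B : V → Prop} (hG1 : Good1 n B) {X : Finset V}
    (hX : X.Nonempty) (hI : Ind B X) (hd1 : 1 ≤ dm X) (hdn : dm X ≤ n) (hd : dm X ≤ m + c0)
    (hm : 1 ≤ m) (hc0 : 1000 * c0 ≤ m) (hnm : (n : ℝ) * m ≤ (1001 / 1000) * 2 ^ m)
    (hbig : 10 ^ 24 * m ≤ n) (hk : (98 / 100) * (2 : ℝ) ^ m ≤ #X) (hkn : 800000 * n ≤ #X) :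
    (#(Spop X ((#X : ℝ) ^ 2 / (16 * 10 ^ 10 * (n * dm X)))) : ℝ) ≤ (105 / 100) * #X := by
  have hk0 : (0 : ℝ) < #X := by exact_mod_cast hX.card_pos
  set k : ℝ := (#X : ℝ) with hkdef
  have hsp := sp_dm X
  generalize dm X = d at *
  obtain ⟨z, hz⟩ : ∃ z : ℕ, z = n / 1000 + 1 := ⟨_, rfl⟩
  have hmr : (1 : ℝ) ≤ m := by exact_mod_cast hm
  have hnr : (1 : ℝ) ≤ n := by exact_mod_cast hn
  have hbigr : (10 : ℝ) ^ 24 * m ≤ n := by exact_mod_cast hbig
  have hc0r : 1000 * (c0 : ℝ) ≤ m := by exact_mod_cast hc0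
  have hdr : (d : ℝ) ≤ m + c0 := by exact_mod_cast hd
  have hd1r : (1 : ℝ) ≤ d := by exact_mod_cast hd1
  have hzn : 1000 * z ≤ n + 1000 := by omega
  have hnz : n ≤ 1000 * z := by omega
  have hznr : 1000 * (z : ℝ) ≤ n + 1000 := by exact_mod_cast hzn
  have hnzr : (n : ℝ) ≤ 1000 * z := by exact_mod_cast hnz
  have hn1000 : 1000 ≤ n := by
    have : 10 ^ 24 * 1 ≤ 10 ^ 24 * m := Nat.mul_le_mul_left _ hm
    have h2 : 1000 ≤ 10 ^ 24 * 1 := by norm_num
    exact h2.trans (this.trans hbig)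
  have hn1000r : (1000 : ℝ) ≤ n := by exact_mod_cast hn1000
  set R : ℝ := k ^ 2 / (16 * 10 ^ 10 * (n * d)) with hR
  obtain ⟨Z, hZX, hZc, hZs⟩ := sampling X hX z (Spop X R)
  have h2z : 2 * (z : ℝ) / k ≤ 1 := by
    rw [div_le_one hk0]
    have e1 : 2 * z ≤ #X := by omega
    rw [hkdef]; exact_mod_cast e1
  have hphi : ∀ s ∈ Spop X R, (998 / 1000 : ℝ) ≤ phi X z s := by
    intro s hs
    have hs' := (Finset.mem_filter.1 hs).2
    unfold phi
    rw [← hkdef]
    have hμ : (1000 : ℝ) ≤ (z : ℝ) ^ 2 * rr X s / k ^ 2 := by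
      rw [le_div_iff₀ (by positivity)]
      have e1 : (z : ℝ) ^ 2 * R ≤ (z : ℝ) ^ 2 * rr X s := mul_le_mul_of_nonneg_left hs' (by positivity)
      refine le_trans ?_ e1
      rw [hR, mul_div_assoc', le_div_iff₀ (by positivity)]
      have e2 : (1000 : ℝ) * (16 * 10 ^ 10 * (n * d)) ≤ z ^ 2 := by
        have e3 : (n : ℝ) ^ 2 ≤ 10 ^ 6 * z ^ 2 := by nlinarith
        have e4 : (d : ℝ) ≤ 2 * m := by linarith
        have e5 : (16 : ℝ) * 10 ^ 19 * d ≤ n := by
          have : (16 : ℝ) * 10 ^ 19 * d ≤ 16 * 10 ^ 19 * (2 * m) := by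
            exact mul_le_mul_of_nonneg_left e4 (by positivity)
          have h2 : (16 : ℝ) * 10 ^ 19 * (2 * m) ≤ 10 ^ 24 * m := by
            have : (0 : ℝ) ≤ m := by linarith
            nlinarith
          linarith
        have e6 : (16 : ℝ) * 10 ^ 19 * d * n ≤ n * n := mul_le_mul_of_nonneg_right e5 (by linarith)
        nlinarith
      calc (1000 : ℝ) * k ^ 2 * (16 * 10 ^ 10 * (n * d)) = (1000 * (16 * 10 ^ 10 * (n * d))) * k ^ 2 := by ring
        _ ≤ (z : ℝ) ^ 2 * k ^ 2 := mul_le_mul_of_nonneg_right e2 (by positivity)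
    set μ : ℝ := (z : ℝ) ^ 2 * rr X s / k ^ 2 with hμdef
    rw [le_div_iff₀ (by positivity)]
    linarith
  have h1 := Finset.sum_le_sum hphi
  rw [Finset.sum_const, nsmul_eq_mul] at h1
  have h2 := h1.trans hZs
  have h3 := hG1 d (2 * z) hd1 hdn (by omega) (by omega) Z (hI.subset hZX) hZc
    (hsp.subset hZX)
  have h4 : (1000 : ℝ) * #(Z + Z) ≤ 1001 * ((n + 2 * z) * d) := by exact_mod_cast h3
  -- numerical part
  have h5 : ((n : ℝ) + 2 * z) ≤ (1003 / 1000) * n := by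
    have : (10 : ℝ) ^ 24 * 1 ≤ 10 ^ 24 * m := by
      exact mul_le_mul_of_nonneg_left hmr (by positivity)
    have h6 : (10 : ℝ) ^ 24 ≤ n := by linarith
    have h7 : (10 : ℝ) ^ 4 ≤ n := le_trans (by norm_num) h6
    norm_num at h7
    linarith
  have h6 : (d : ℝ) ≤ (1001 / 1000) * m := by linarith
  have h7 : ((n : ℝ) + 2 * z) * d ≤ ((1003 / 1000) * n) * ((1001 / 1000) * m) :=
    mul_le_mul h5 h6 (by positivity) (by positivity)
  have h8 : ((1003 / 1000) * (n : ℝ)) * ((1001 / 1000) * m) ≤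
      (1003 / 1000) * (1001 / 1000) * ((1001 / 1000) * 2 ^ m) := by
    calc _ = (1003 / 1000) * (1001 / 1000) * ((n : ℝ) * m) := by ring
      _ ≤ _ := mul_le_mul_of_nonneg_left hnm (by norm_num)
  linarith

theorem det : ∃ c0 : ℕ, ∀ m n : ℕ, 2 * 10 ^ 14 ≤ m → 1000 * c0 ≤ m →
    (n : ℝ) * m ≤ (1001 / 1000) * 2 ^ m → 10 ^ 24 * m ≤ n →
    ∀ (V : Type) [AddCommGroup V] [Module (ZMod 2) V] [Fintype V] [DecidableEq V],
      Module.finrank (ZMod 2) V = n → ∀ B : V → Prop, Good1 n B → Good2 n B →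
      ∀ X : Finset V, Ind B X → (99 / 100) * (2 : ℝ) ^ m ≤ #X → (#X : ℝ) < 2 ^ m →
      ∃ K : Submodule (ZMod 2) V, Module.finrank (ZMod 2) K = m ∧ ∀ h ∈ K, h ≠ 0 → B h := by
  obtain ⟨Q, hQ⟩ : ∃ Q : ℕ, Q = 10 ^ 14 := ⟨_, rfl⟩
  have hQr : (Q : ℝ) = 10 ^ 14 := by rw [hQ]; push_cast; ring
  set C1 : ℝ := (2 : ℝ) ^ (2 * Q) with hC1
  have hC11 : 1 ≤ C1 := one_le_pow₀ (by norm_num)
  set γ : ℝ := 9 / (10 * (16 * 10 ^ 10) * C1) with hγ
  have hγ0 : 0 < γ := by positivity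
  obtain ⟨c, hc⟩ := exists_nat_ge ((2 / γ ^ 2) ^ 4)
  obtain ⟨c', hc'⟩ := pow_unbounded_of_one_lt (2 / γ ^ 2) (show (1 : ℝ) < 2 by norm_num)
  refine ⟨c + c', ?_⟩
  intro m n hm hc0 hnm hbig V _ _ _ _ hV B hG1 hG2 X hI hk hk2
  have hmr : (2 : ℝ) * 10 ^ 14 ≤ m := by exact_mod_cast hm
  have hm0 : (0 : ℝ) < m := lt_of_lt_of_le (by norm_num) hmr
  have hm1 : 1 ≤ m := by
    have : (0 : ℝ) < m := hm0
    have h2 : 0 < m := by exact_mod_cast this
    exact h2
  have hbigr : (10 : ℝ) ^ 24 * m ≤ n := by exact_mod_cast hbig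
  have hn0 : (0 : ℝ) < n := lt_of_lt_of_le (by positivity) hbigr
  have hn1 : 1 ≤ n := by
    have h2 : 0 < n := by exact_mod_cast hn0
    exact h2
  have h2m : (0 : ℝ) < 2 ^ m := by positivity
  have hk0 : (0 : ℝ) < #X := by linarith
  have hX : X.Nonempty := by
    rw [← Finset.card_pos]; exact_mod_cast hk0
  -- n is much smaller than 2^m
  have hn_small : (n : ℝ) * (2 * 10 ^ 14) ≤ (1001 / 1000) * 2 ^ m :=
    (mul_le_mul_of_nonneg_left hmr hn0.le).trans hnm
  have hkn : 900000 * n ≤ #X := by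
    have : (900000 : ℝ) * n ≤ #X := by nlinarith
    exact_mod_cast this
  have hX2 : 2 ≤ #X := by omega
  have hdn : dm X ≤ n := by
    rw [← hV]; exact Submodule.finrank_le _
  have hd1 := dm_pos hX2
  obtain ⟨d, hddef⟩ : ∃ d : ℕ, d = dm X := ⟨_, rfl⟩
  have hdn' : d ≤ n := by omega
  have hd1' : 1 ≤ d := by omega
  have hd1r : (1 : ℝ) ≤ d := by exact_mod_cast hd1'
  have hpop := pop hG1 hX hI (sp_dm X) hd1 hdn (by omega)
  rw [← hddef] at hpop
  set k : ℝ := (#X : ℝ) with hkdef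
  set R : ℝ := k ^ 2 / (16 * 10 ^ 10 * (n * d)) with hR
  have hR0 : 0 < R := by positivity
  -- the rank is at most C1 m
  have hrank : (d : ℝ) < C1 * m := by
    by_contra hcon
    push Not at hcon
    obtain ⟨t, ht⟩ : ∃ t : ℕ, t = d / 5 := ⟨_, rfl⟩
    obtain ⟨L, hL⟩ : ∃ L : ℕ, L = m / Q := ⟨_, rfl⟩
    have hdm : (m : ℝ) ≤ d := by nlinarith
    have hd30 : 30 ≤ d := by
      have : (30 : ℝ) ≤ d := by
        have : (30 : ℝ) ≤ 2 * 10 ^ 14 := by norm_num
        linarith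
      exact_mod_cast this
    have ht5 : 5 * t ≤ d := by omega
    have ht6 : d ≤ 6 * t := by omega
    have ht6r : (d : ℝ) ≤ 6 * t := by exact_mod_cast ht6
    have ht3 : 3 ≤ t := by omega
    have hQ0 : 0 < Q := by rw [hQ]; norm_num
    have hmQ : 2 * Q ≤ m := by rw [hQ]; exact hm
    have hLQ : L * Q ≤ m := by rw [hL]; exact Nat.div_mul_le_self m Q
    have hLQ2 : m < (L + 1) * Q := by
      rw [hL]
      have := Nat.lt_div_mul_add (a := m) hQ0
      linarith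
    have hL1 : 1 ≤ L := by
      rw [hL]; exact (Nat.one_le_div_iff hQ0).2 (by omega)
    have hLQr : (L : ℝ) * Q ≤ m := by exact_mod_cast hLQ
    have hmL : m ≤ 2 * Q * L := by
      have e1 : Q ≤ L * Q := Nat.le_mul_of_pos_left Q hL1
      nlinarith
    have hLt : 64 * k * L ≤ t * R := by
      rw [hR, mul_div_assoc', le_div_iff₀ (by positivity)]
      -- 64 k L N0 n d <= t k^2
      have e1 : 384 * (16 * 10 ^ 10) * ((n : ℝ) * L) ≤ k := by
        have e2 : (n : ℝ) * (L * Q) ≤ (1001 / 1000) * 2 ^ m :=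
          (mul_le_mul_of_nonneg_left hLQr hn0.le).trans hnm
        rw [hQr] at e2
        nlinarith
      have e3 : 64 * k * L * (16 * 10 ^ 10 * (n * d)) =
          (k * d / 6) * (384 * (16 * 10 ^ 10) * ((n : ℝ) * L)) := by ring
      rw [e3]
      have e4 : k * d / 6 ≤ k * t := by nlinarith
      calc (k * d / 6) * (384 * (16 * 10 ^ 10) * ((n : ℝ) * L)) ≤ (k * d / 6) * k :=
            mul_le_mul_of_nonneg_left e1 (by positivity)
        _ ≤ (k * t) * k := mul_le_mul_of_nonneg_right e4 hk0.le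
        _ = _ := by ring
    have hhr := high_rank hn1 hG2 hX hI hdn hR0 hpop (by omega) (by omega) ht3 hL1 hLt
    have e5 : C1 ≤ (t : ℝ) / L := by
      have hL0 : (0 : ℝ) < L := by exact_mod_cast hL1
      rw [le_div_iff₀ hL0]
      have e6 : C1 * ((L : ℝ) * Q) ≤ 6 * t := (mul_le_mul_of_nonneg_left hLQr (by positivity)).trans
        (hcon.trans ht6r)
      rw [hQr] at e6
      have e7 : 0 ≤ C1 * (L : ℝ) := by positivity
      nlinarith
    have e8 : C1 ^ L ≤ #X := (pow_le_pow_left₀ (by positivity) e5 L).trans hhr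
    have e9 : (2 : ℝ) ^ m ≤ C1 ^ L := by
      rw [hC1, ← pow_mul]
      exact pow_le_pow_right₀ (by norm_num) hmL
    linarith
  -- the core has small rank
  have hRγ : γ * #X ≤ R := by
    rw [← hkdef, hR, le_div_iff₀ (by positivity)]
    have e1 : (9 / 10) * ((n : ℝ) * m) ≤ k := by linarith
    have e2 : γ * (16 * 10 ^ 10 * (n * (C1 * m))) = (9 / 10) * ((n : ℝ) * m) := by
      rw [hγ]; field_simp
    calc γ * k * (16 * 10 ^ 10 * (n * d)) = k * (γ * (16 * 10 ^ 10 * (n * d))) := by ring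
      _ ≤ k * (γ * (16 * 10 ^ 10 * (n * (C1 * m)))) := by
          have h3 : (n : ℝ) * d ≤ n * (C1 * m) := mul_le_mul_of_nonneg_left hrank.le hn0.le
          have h4 : γ * (16 * 10 ^ 10 * ((n : ℝ) * d)) ≤ γ * (16 * 10 ^ 10 * (n * (C1 * m))) :=
            mul_le_mul_of_nonneg_left (mul_le_mul_of_nonneg_left h3 (by norm_num)) hγ0.le
          exact mul_le_mul_of_nonneg_left h4 hk0.le
      _ = k * ((9 / 10) * ((n : ℝ) * m)) := by rw [e2]
      _ ≤ k * k := mul_le_mul_of_nonneg_left e1 hk0.le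
      _ = _ := by ring
  have hlow := low_rank hX hγ0 hRγ hpop c hc
  set X1 := core X R with hX1
  have hX1X : X1 ⊆ X := core_subset X R
  have hX1c : (99 / 100) * k ≤ #X1 := card_core hX hpop
  have hdm1 : dm X1 ≤ m + (c + c') := by
    have e1 : (2 : ℝ) ^ dm X1 < 2 ^ (m + (c + c')) := by
      calc (2 : ℝ) ^ dm X1 ≤ 2 ^ c * ((2 / γ ^ 2) * #X) := hlow
        _ ≤ 2 ^ c * (2 ^ c' * k) := by
            refine mul_le_mul_of_nonneg_left (mul_le_mul_of_nonneg_right hc'.le hk0.le) (by positivity)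
        _ < 2 ^ c * (2 ^ c' * 2 ^ m) := by
            refine mul_lt_mul_of_pos_left (mul_lt_mul_of_pos_left hk2 (by positivity)) (by positivity)
        _ = _ := by rw [pow_add, pow_add]; ring
    have := (pow_lt_pow_iff_right₀ (show (1 : ℝ) < 2 by norm_num)).1 e1
    omega
  have hkX1 : (98 / 100) * (2 : ℝ) ^ m ≤ #X1 := by linarith
  have hX1ne : X1.Nonempty := by
    rw [← Finset.card_pos]
    have : (0 : ℝ) < #X1 := by linarith
    exact_mod_cast this
  have hkn1 : 800000 * n ≤ #X1 := by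
    have e1 : (900000 : ℝ) * n ≤ k := by rw [hkdef]; exact_mod_cast hkn
    have : (800000 : ℝ) * n ≤ #X1 := by linarith
    exact_mod_cast this
  have hX12 : 2 ≤ #X1 := by omega
  have hdn1 : dm X1 ≤ n := by
    rw [← hV]; exact Submodule.finrank_le _
  have hI1 : Ind B X1 := hI.subset hX1X
  have hpop1 := pop hG1 hX1ne hI1 (sp_dm X1) (dm_pos hX12) hdn1 hkn1
  have hfew := few_popular hn1 hG1 hX1ne hI1 (dm_pos hX12) hdn1 hdm1 hm1 hc0 hnm hbig hkX1 hkn1
  obtain ⟨K, hK1, hK2, hK3⟩ := struct hX1ne hpop1 hfew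
  refine ⟨K, ?_, ?_⟩
  · rw [natCard_sub] at hK2 hK3
    push_cast at hK2 hK3
    have hX1k : (#X1 : ℝ) ≤ k := by rw [hkdef]; exact_mod_cast Finset.card_le_card hX1X
    have e1 : (2 : ℝ) ^ Module.finrank (ZMod 2) K < 2 ^ (m + 1) := by
      rw [pow_succ]; linarith
    have e2 : (2 : ℝ) ^ m < 2 ^ (Module.finrank (ZMod 2) K + 1) := by
      rw [pow_succ]; linarith
    have e3 := (pow_lt_pow_iff_right₀ (show (1 : ℝ) < 2 by norm_num)).1 e1
    have e4 := (pow_lt_pow_iff_right₀ (show (1 : ℝ) < 2 by norm_num)).1 e2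
    omega
  · intro h hh hne
    obtain ⟨x, hx, hxh⟩ := hK1 h hh
    have := hI1 x hx (x + h) hxh (fun heq => hne (by
      have : x + 0 = x + h := by rw [add_zero]; exact heq
      exact (add_left_cancel this).symm))
    rwa [add_add_cancel'] at this

end H2CS
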