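import Mathlib
import Pool.Agent.H2CS.Count

set_option autoImplicit false
set_option linter.unusedSectionVars false

open Finset
open scoped Pointwise

namespace H2CS

open H2BC

variable {V : Type} [AddCommGroup V] [Module (ZMod 2) V] [Fintype V] [DecidableEq V]

/-- All nonzero elements of `K` have colour `b`. -/
def Col (b : Bool) (K : Submodule (ZMod 2) V) (ω : V → Bool) : Prop := ∀ h ∈ K, h ≠ 0 → ω h = b

lemma col_iff (b : Bool) (K : Submodule (ZMod 2) V) (ω : V → Bool) :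
    Col b K ω ↔ ∀ h ∈ (elts K).erase 0, ω h = b := by
  unfold Col
  constructor
  · intro h x hx
    obtain ⟨h1, h2⟩ := Finset.mem_erase.1 hx
    exact h x (mem_elts.1 h2) h1
  · intro h x hx hne
    exact h x (Finset.mem_erase.2 ⟨hne, mem_elts.2 hx⟩)

lemma card_elts_erase {m : ℕ} {K : Submodule (ZMod 2) V} (hK : K ∈ subs V m) :
    #((elts K).erase 0) = 2 ^ m - 1 := by
  rw [Finset.card_erase_of_mem (mem_elts.2 K.zero_mem), card_elts, mem_subs.1 hK]

lemma Pr_col {m : ℕ} (b : Bool) {K : Submodule (ZMod 2) V} (hK : K ∈ subs V m) :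
    Pr (fun ω : V → Bool => Col b K ω) = (1 / 2) ^ (2 ^ m - 1) := by
  rw [← card_elts_erase hK, ← Pr_cyl _ b]
  exact Pr_congr fun ω => col_iff b K ω

lemma Pr_two {m j : ℕ} {K K' : Submodule (ZMod 2) V} (hK : K ∈ subs V m) (hK' : K' ∈ subs V m)
    (hj : Module.finrank (ZMod 2) (K ⊓ K' : Submodule (ZMod 2) V) = j) :
    Pr (fun ω : V → Bool => Col true K ω ∧ Col true K' ω) =
      (1 / 2) ^ (2 ^ m - 1) * (1 / 2) ^ (2 ^ m - 2 ^ j) := by
  have h1 : Pr (fun ω : V → Bool => Col true K ω ∧ Col true K' ω) =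
      Pr (fun ω : V → Bool => ∀ h ∈ (elts K ∪ elts K').erase 0, ω h = true) := by
    refine Pr_congr fun ω => ?_
    rw [col_iff, col_iff]
    constructor
    · rintro ⟨h1, h2⟩ x hx
      obtain ⟨hx0, hx⟩ := Finset.mem_erase.1 hx
      rcases Finset.mem_union.1 hx with h | h
      · exact h1 x (Finset.mem_erase.2 ⟨hx0, h⟩)
      · exact h2 x (Finset.mem_erase.2 ⟨hx0, h⟩)
    · intro h
      refine ⟨fun x hx => ?_, fun x hx => ?_⟩
      · obtain ⟨hx0, hx⟩ := Finset.mem_erase.1 hx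
        exact h x (Finset.mem_erase.2 ⟨hx0, Finset.mem_union_left _ hx⟩)
      · obtain ⟨hx0, hx⟩ := Finset.mem_erase.1 hx
        exact h x (Finset.mem_erase.2 ⟨hx0, Finset.mem_union_right _ hx⟩)
  rw [h1, Pr_cyl, ← pow_add]
  congr 1
  have h2 : elts K ∩ elts K' = elts (K ⊓ K') := by
    ext x
    rw [Finset.mem_inter, mem_elts, mem_elts, mem_elts, Submodule.mem_inf]
  have h3 := Finset.card_union_add_card_inter (elts K) (elts K')
  rw [h2, card_elts, card_elts, card_elts, mem_subs.1 hK, mem_subs.1 hK', hj] at h3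
  rw [Finset.card_erase_of_mem (Finset.mem_union_left _ (mem_elts.2 K.zero_mem))]
  have hjm : j ≤ m := by
    rw [← hj, ← mem_subs.1 hK]
    exact Submodule.finrank_mono inf_le_left
  have h4 : 2 ^ j ≤ 2 ^ m := Nat.pow_le_pow_right (by norm_num) hjm
  have h5 : 1 ≤ 2 ^ m := Nat.one_le_pow _ _ (by norm_num)
  have h6 : 1 ≤ 2 ^ j := Nat.one_le_pow _ _ (by norm_num)
  omega

/-- Second moment inequality. -/
lemma second_mom {ι : Type} [Fintype ι] [DecidableEq ι] (Z : (ι → Bool) → ℝ) :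
    Ex Z ^ 2 ≤ Pr (fun ω => Z ω ≠ 0) * Ex (fun ω => Z ω ^ 2) := by
  unfold Pr Ex
  have h1 := Finset.sum_mul_sq_le_sq_mul_sq (univ : Finset (ι → Bool))
    (fun ω => @ite ℝ (Z ω ≠ 0) (Classical.propDecidable _) 1 0) Z
  have h2 : ∀ ω : ι → Bool, (@ite ℝ (Z ω ≠ 0) (Classical.propDecidable _) 1 0) * Z ω = Z ω := by
    intro ω
    by_cases h : Z ω = 0
    · simp [h]
    · simp [h]
  have h3 : ∀ ω : ι → Bool, (@ite ℝ (Z ω ≠ 0) (Classical.propDecidable _) 1 0) ^ 2 =
      @ite ℝ (Z ω ≠ 0) (Classical.propDecidable _) 1 0 := by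
    intro ω
    by_cases h : Z ω = 0
    · simp [h]
    · simp [h]
  simp only [h2, h3] at h1
  rw [div_pow, div_mul_div_comm, ← sq]
  exact div_le_div_of_nonneg_right h1 (by positivity)

lemma exponent_aux {m q j : ℕ} (hq : m * q + 4 = 2 ^ m) (hj1 : 1 ≤ j) (hjm : j < m) :
    2 ^ j ≤ q * (j - 1) + 4 := by
  rcases Nat.lt_or_ge j 3 with hlt | hge
  · interval_cases j
    · norm_num
    · norm_num
  · obtain ⟨i, rfl⟩ := Nat.exists_eq_add_of_lt hjm
    obtain ⟨a, rfl⟩ := Nat.exists_eq_add_of_le hge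
    -- m = 3 + a + i + 1
    have h1 : i + 2 ≤ 2 ^ (i + 1) := Nat.lt_two_pow_self (n := i + 1)
    have h2 : (3 + a + i + 1) * 2 ^ (3 + a) ≤ 2 ^ (3 + a + i + 1) * (3 + a - 1) := by
      have e1 : 2 ^ (3 + a + i + 1) = 2 ^ (i + 1) * 2 ^ (3 + a) := by rw [← pow_add]; congr 1; ring
      have e2 : 3 + a - 1 = a + 2 := by omega
      rw [e1, e2]
      have e3 : 3 + a + i + 1 ≤ 2 ^ (i + 1) * (a + 2) := by
        calc 3 + a + i + 1 ≤ (i + 2) * (a + 2) := by nlinarith
          _ ≤ _ := Nat.mul_le_mul_right _ h1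
      calc (3 + a + i + 1) * 2 ^ (3 + a) ≤ (2 ^ (i + 1) * (a + 2)) * 2 ^ (3 + a) :=
            Nat.mul_le_mul_right _ e3
        _ = _ := by ring
    have h3 : (3 + a + i + 1) * 2 ^ (3 + a) ≤ (3 + a + i + 1) * (q * (3 + a - 1) + 4) := by
      refine h2.trans ?_
      rw [← hq]
      have e2 : 3 + a - 1 = a + 2 := by omega
      rw [e2]
      nlinarith
    exact Nat.le_of_mul_le_mul_left h3 (by omega)

lemma weight_aux {m q j : ℕ} (hq : m * q + 4 = 2 ^ m) (hmq : m ^ 2 ≤ q) (hj1 : 1 ≤ j) (hjm : j < m) :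
    (2 : ℝ) ^ (m * j + (m + q) * (m - j)) * (1 / 2) ^ (2 ^ m - 2 ^ j) ≤ (1 / 2) ^ (q - m ^ 2) := by
  have h1 := exponent_aux hq hj1 hjm
  have h2 : 2 ^ j ≤ 2 ^ m := Nat.pow_le_pow_right (by norm_num) hjm.le
  have h3 : (m * j + (m + q) * (m - j)) + (q - m ^ 2) ≤ 2 ^ m - 2 ^ j := by
    obtain ⟨i, rfl⟩ := Nat.exists_eq_add_of_lt hjm
    have e1 : j + i + 1 - j = i + 1 := by omega
    obtain ⟨c, rfl⟩ := Nat.exists_eq_add_of_le hmq
    have e2 : (j + i + 1) ^ 2 + c - (j + i + 1) ^ 2 = c := by omega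
    rw [e1, e2]
    obtain ⟨b, rfl⟩ := Nat.exists_eq_add_of_le hj1
    have e3 : 1 + b - 1 = b := by omega
    rw [e3] at h1
    have : (1 + b + i + 1) * (1 + b) + ((1 + b + i + 1) + ((1 + b + i + 1) ^ 2 + c)) * (i + 1) + c +
        2 ^ (1 + b) ≤ 2 ^ (1 + b + i + 1) := by
      rw [← hq]
      nlinarith
    omega
  have h4 : (2 : ℝ) ^ (m * j + (m + q) * (m - j)) * (1 / 2) ^ ((m * j + (m + q) * (m - j)) + (q - m ^ 2)) =
      (1 / 2) ^ (q - m ^ 2) := by
    rw [pow_add (1 / 2 : ℝ), ← mul_assoc, ← mul_pow]; norm_num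
  rw [← h4]
  exact mul_le_mul_of_nonneg_left (pow_le_pow_of_le_one (by norm_num) (by norm_num) h3) (by positivity)

/-- The probability of the exceptional event. -/
lemma main_prob {m q : ℕ} (hm : 1 ≤ m) (hV : Module.finrank (ZMod 2) V = m + q)
    (hq : m * q + 4 = 2 ^ m) (hmq : m ^ 2 ≤ q) (hsmall : (m : ℝ) * (1 / 2) ^ (q - m ^ 2) ≤ 1 / 100) :
    1 / 50 ≤ Pr (fun ω : V → Bool => (∃ K ∈ subs V m, Col true K ω) ∧ ¬ ∃ K ∈ subs V m, Col false K ω) := by
  classical
  set N : ℝ := (#(subs V m) : ℝ) with hN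
  set p0 : ℝ := (1 / 2) ^ (2 ^ m - 1) with hp0
  have hp0pos : 0 < p0 := by positivity
  have hN0 : 0 ≤ N := by positivity
  -- bounds on N p0
  have hpow : (2 : ℝ) ^ (q * m) * p0 = 1 / 8 := by
    have e1 : 2 ^ m - 1 = q * m + 3 := by
      rw [← hq, Nat.mul_comm q m]; omega
    rw [hp0, e1, pow_add, ← mul_assoc, ← mul_pow]; norm_num
  have hlow : 1 / 8 ≤ N * p0 := by
    have e1 := subs_lower (V := V) hV (Nat.le_add_right m q)
    rw [Nat.add_sub_cancel_left] at e1
    have e2 : (2 : ℝ) ^ (q * m) ≤ N := by rw [hN]; exact_mod_cast e1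
    calc (1 : ℝ) / 8 = 2 ^ (q * m) * p0 := hpow.symm
      _ ≤ _ := mul_le_mul_of_nonneg_right e2 hp0pos.le
  have hupp : N * p0 ≤ 1 / 2 := by
    have e1 := subs_upper (V := V) hV (Nat.le_add_right m q) hm
    rw [Nat.add_sub_cancel_left] at e1
    calc N * p0 ≤ (4 * 2 ^ (q * m)) * p0 := mul_le_mul_of_nonneg_right e1 hp0pos.le
      _ = 4 * (2 ^ (q * m) * p0) := by ring
      _ = 1 / 2 := by rw [hpow]; norm_num
  set l : ℝ := N * p0 with hl
  -- the counting variable
  set Z : (V → Bool) → ℝ := fun ω => ∑ K ∈ subs V m,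
    (@ite ℝ (Col true K ω) (Classical.propDecidable _) 1 0) with hZ
  have hEZ : Ex Z = l := by
    rw [hZ, Ex_sum]
    have : ∀ K ∈ subs V m, Ex (fun ω : V → Bool => @ite ℝ (Col true K ω) (Classical.propDecidable _) 1 0) = p0 :=
      fun K hK => Pr_col true hK
    rw [Finset.sum_congr rfl this, Finset.sum_const, nsmul_eq_mul]
  have hEZ2 : Ex (fun ω => Z ω ^ 2) ≤ l ^ 2 + l * (101 / 100) := by
    have e1 : ∀ ω, Z ω ^ 2 = ∑ K ∈ subs V m, ∑ K' ∈ subs V m,
        (@ite ℝ (Col true K ω ∧ Col true K' ω) (Classical.propDecidable _) 1 0) := by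
      intro ω
      rw [hZ, sq, Finset.sum_mul_sum]
      refine Finset.sum_congr rfl fun K _ => Finset.sum_congr rfl fun K' _ => ?_
      by_cases h : Col true K ω <;> by_cases h' : Col true K' ω <;> simp [h, h']
    have e2 : Ex (fun ω => Z ω ^ 2) = ∑ K ∈ subs V m, ∑ K' ∈ subs V m,
        Pr (fun ω : V → Bool => Col true K ω ∧ Col true K' ω) := by
      simp only [e1]
      rw [Ex_sum]
      refine Finset.sum_congr rfl fun K _ => ?_
      rw [Ex_sum]
      rfl
    rw [e2]
    have e3 : ∀ K ∈ subs V m, ∑ K' ∈ subs V m,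
        Pr (fun ω : V → Bool => Col true K ω ∧ Col true K' ω) ≤
        N * p0 ^ 2 + p0 * (101 / 100) := by
      intro K hK
      have hKm := mem_subs.1 hK
      have e4 : ∀ K' ∈ subs V m, Pr (fun ω : V → Bool => Col true K ω ∧ Col true K' ω) ≤
          p0 ^ 2 + (if K' = K then p0 else 0) + ∑ j ∈ Finset.Ico 1 m,
            (if Module.finrank (ZMod 2) (K ⊓ K' : Submodule (ZMod 2) V) = j then
              p0 * (1 / 2) ^ (2 ^ m - 2 ^ j) else 0) := by
        intro K' hK'
        have hK'm := mem_subs.1 hK'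
        obtain ⟨j, hj⟩ : ∃ j, j = Module.finrank (ZMod 2) (K ⊓ K' : Submodule (ZMod 2) V) := ⟨_, rfl⟩
        rw [Pr_two hK hK' hj.symm, ← hj, ← hp0]
        have hjm : j ≤ m := by
          rw [hj, ← hKm]
          exact Submodule.finrank_mono inf_le_left
        have hs0 : (0 : ℝ) ≤ ∑ i ∈ Finset.Ico 1 m,
            (if j = i then p0 * (1 / 2) ^ (2 ^ m - 2 ^ i) else 0) :=
          Finset.sum_nonneg fun i _ => by split_ifs <;> positivity
        have hi0 : (0 : ℝ) ≤ if K' = K then p0 else 0 := by split_ifs <;> positivity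
        rcases Nat.eq_zero_or_pos j with h0 | hpos
        · subst h0
          rw [pow_zero, ← hp0]
          nlinarith
        · rcases Nat.eq_or_lt_of_le hjm with hje | hjlt
          · have hKK : K' = K := by
              have h1 : K ⊓ K' = K := Submodule.eq_of_le_of_finrank_eq inf_le_left (by
                rw [← hj, hKm, hje])
              have h2 : K ⊓ K' = K' := Submodule.eq_of_le_of_finrank_eq inf_le_right (by
                rw [← hj, hK'm, hje])
              exact h2.symm.trans h1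
            rw [if_pos hKK, hje, Nat.sub_self, pow_zero, mul_one]
            have : 0 ≤ p0 ^ 2 := by positivity
            rw [hje] at hs0
            linarith
          · have h1 : p0 * (1 / 2) ^ (2 ^ m - 2 ^ j) ≤ ∑ i ∈ Finset.Ico 1 m,
                (if j = i then p0 * (1 / 2) ^ (2 ^ m - 2 ^ i) else 0) := by
              rw [Finset.sum_ite_eq, if_pos (Finset.mem_Ico.2 ⟨hpos, hjlt⟩)]
            have : 0 ≤ p0 ^ 2 := by positivity
            linarith
      refine (Finset.sum_le_sum e4).trans ?_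
      rw [Finset.sum_add_distrib, Finset.sum_add_distrib, Finset.sum_const, nsmul_eq_mul,
        Finset.sum_ite_eq', if_pos hK]
      have e5 : ∑ K' ∈ subs V m, ∑ j ∈ Finset.Ico 1 m,
            (if Module.finrank (ZMod 2) (K ⊓ K' : Submodule (ZMod 2) V) = j then
              p0 * (1 / 2) ^ (2 ^ m - 2 ^ j) else 0) ≤ p0 * (1 / 100) := by
        rw [Finset.sum_comm]
        have e6 : ∀ j ∈ Finset.Ico 1 m, ∑ K' ∈ subs V m,
            (if Module.finrank (ZMod 2) (K ⊓ K' : Submodule (ZMod 2) V) = j then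
              p0 * (1 / 2) ^ (2 ^ m - 2 ^ j) else 0) ≤ p0 * (1 / 2) ^ (q - m ^ 2) := by
          intro j hj
          have hj' := Finset.mem_Ico.1 hj
          rw [← Finset.sum_filter, Finset.sum_const, nsmul_eq_mul]
          have e7 := count_inter hV K hKm hj'.2.le
          have e8 : (#((subs V m).filter (fun K' =>
              Module.finrank (ZMod 2) (K ⊓ K' : Submodule (ZMod 2) V) = j)) : ℝ) ≤
              2 ^ (m * j + (m + q) * (m - j)) := by exact_mod_cast e7
          calc _ ≤ (2 : ℝ) ^ (m * j + (m + q) * (m - j)) * (p0 * (1 / 2) ^ (2 ^ m - 2 ^ j)) :=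
                mul_le_mul_of_nonneg_right e8 (by positivity)
            _ = p0 * ((2 : ℝ) ^ (m * j + (m + q) * (m - j)) * (1 / 2) ^ (2 ^ m - 2 ^ j)) := by ring
            _ ≤ _ := mul_le_mul_of_nonneg_left (weight_aux hq hmq hj'.1 hj'.2) hp0pos.le
        refine (Finset.sum_le_sum e6).trans ?_
        rw [Finset.sum_const, nsmul_eq_mul, Nat.card_Ico]
        have e9 : ((m - 1 : ℕ) : ℝ) ≤ m := by exact_mod_cast Nat.sub_le m 1
        calc ((m - 1 : ℕ) : ℝ) * (p0 * (1 / 2) ^ (q - m ^ 2)) ≤ m * (p0 * (1 / 2) ^ (q - m ^ 2)) :=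
              mul_le_mul_of_nonneg_right e9 (by positivity)
          _ = p0 * (m * (1 / 2) ^ (q - m ^ 2)) := by ring
          _ ≤ _ := mul_le_mul_of_nonneg_left hsmall hp0pos.le
      rw [← hN]
      linarith
    refine (Finset.sum_le_sum e3).trans (le_of_eq ?_)
    rw [Finset.sum_const, nsmul_eq_mul, ← hN, hl]
    ring
  have hP1 : l / (l + 101 / 100) ≤ Pr (fun ω : V → Bool => ∃ K ∈ subs V m, Col true K ω) := by
    have e1 := second_mom Z
    rw [hEZ] at e1
    have e2 : Pr (fun ω => Z ω ≠ 0) ≤ Pr (fun ω : V → Bool => ∃ K ∈ subs V m, Col true K ω) := by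
      refine Pr_mono fun ω hω => ?_
      by_contra hcon
      push Not at hcon
      apply hω
      rw [hZ]
      refine Finset.sum_eq_zero fun K hK => ?_
      rw [if_neg (hcon K hK)]
    have e3 : 0 ≤ Ex (fun ω => Z ω ^ 2) := Ex_nonneg fun ω => sq_nonneg _
    have e4 : 0 ≤ Pr (fun ω => Z ω ≠ 0) := Pr_nonneg _
    have hl0 : 0 < l := by linarith
    have e5 : l ^ 2 ≤ Pr (fun ω => Z ω ≠ 0) * (l ^ 2 + l * (101 / 100)) :=
      e1.trans (mul_le_mul_of_nonneg_left hEZ2 e4)
    have e6 : l ≤ Pr (fun ω => Z ω ≠ 0) * (l + 101 / 100) := by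
      have : l * l ≤ l * (Pr (fun ω => Z ω ≠ 0) * (l + 101 / 100)) := by nlinarith
      exact le_of_mul_le_mul_left this hl0
    rw [div_le_iff₀ (by positivity)]
    exact e6.trans (mul_le_mul_of_nonneg_right e2 (by positivity))
  have hP2 : Pr (fun ω : V → Bool => (∃ K ∈ subs V m, Col true K ω) ∧ ∃ K ∈ subs V m, Col false K ω) ≤
      l ^ 2 := by
    have e1 : Pr (fun ω : V → Bool => (∃ K ∈ subs V m, Col true K ω) ∧ ∃ K ∈ subs V m, Col false K ω) ≤
        Pr (fun ω : V → Bool => ∃ k ∈ subs V m ×ˢ subs V m, Col true k.1 ω ∧ Col false k.2 ω) := by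
      refine Pr_mono fun ω => ?_
      rintro ⟨⟨K, hK, hc⟩, K', hK', hc'⟩
      exact ⟨(K, K'), Finset.mem_product.2 ⟨hK, hK'⟩, hc, hc'⟩
    refine e1.trans ((Pr_union _ _).trans ?_)
    have e2 : ∀ k ∈ subs V m ×ˢ subs V m,
        Pr (fun ω : V → Bool => Col true k.1 ω ∧ Col false k.2 ω) ≤ p0 * p0 := by
      intro k hk
      obtain ⟨hk1, hk2⟩ := Finset.mem_product.1 hk
      by_cases hd : Disjoint ((elts k.1).erase 0) ((elts k.2).erase 0)
      · rw [Pr_and (S := ((elts k.1).erase 0 : Finset V)) (T := ((elts k.2).erase 0 : Finset V))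
          (by exact_mod_cast hd), Pr_col true hk1, Pr_col false hk2]
        · intro ω ω' h
          rw [col_iff, col_iff]
          exact forall_congr' fun x => forall_congr' fun hx => by rw [h x hx]
        · intro ω ω' h
          rw [col_iff, col_iff]
          exact forall_congr' fun x => forall_congr' fun hx => by rw [h x hx]
      · have : Pr (fun ω : V → Bool => Col true k.1 ω ∧ Col false k.2 ω) ≤
            Ex (fun _ : V → Bool => (0 : ℝ)) := by
          refine Ex_mono fun ω => ?_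
          rw [if_neg]
          rintro ⟨h1, h2⟩
          rw [Finset.not_disjoint_iff] at hd
          obtain ⟨x, hx, hx'⟩ := hd
          have a1 := (col_iff _ _ _).1 h1 x hx
          have a2 := (col_iff _ _ _).1 h2 x hx'
          rw [a1] at a2
          exact absurd a2 (by simp)
        rw [Ex_const] at this
        exact this.trans (by positivity)
    refine (Finset.sum_le_sum e2).trans (le_of_eq ?_)
    rw [Finset.sum_const, nsmul_eq_mul, Finset.card_product, hl, hN]
    push_cast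
    ring
  have hP3 : Pr (fun ω : V → Bool => ∃ K ∈ subs V m, Col true K ω) ≤
      Pr (fun ω : V → Bool => (∃ K ∈ subs V m, Col true K ω) ∧ ¬ ∃ K ∈ subs V m, Col false K ω) +
      Pr (fun ω : V → Bool => (∃ K ∈ subs V m, Col true K ω) ∧ ∃ K ∈ subs V m, Col false K ω) := by
    refine le_trans (Pr_mono fun ω hω => ?_) (Pr_or _ _)
    by_cases h : ∃ K ∈ subs V m, Col false K ω
    · right; exact ⟨hω, h⟩
    · left; exact ⟨hω, h⟩
  have hfin : 1 / 50 + l ^ 2 ≤ l / (l + 101 / 100) := by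
    rw [le_div_iff₀ (by linarith)]
    nlinarith
  linarith

end H2CS
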