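import Mathlib
import Pool.Agent.H2BC.Prob
import Pool.Agent.H2CS.Path

set_option autoImplicit false
set_option linter.unusedSectionVars false

open Finset
open scoped Pointwise

namespace H2CS

open H2BC

variable {V : Type} [AddCommGroup V] [Module (ZMod 2) V] [Fintype V] [DecidableEq V]

/-- The random set, as a predicate (its complement is the other colour). -/
def BB (ω : V → Bool) : V → Prop := fun v => ω v = false

lemma Pr_union_univ {ι κ : Type} [Fintype ι] [DecidableEq ι] [Fintype κ]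
    (P : κ → (ι → Bool) → Prop) (c : ℝ) (h : ∀ k, Pr (P k) ≤ c) :
    Pr (fun ω => ∃ k, P k ω) ≤ Fintype.card κ * c := by
  have h1 : Pr (fun ω : ι → Bool => ∃ k, P k ω) ≤ Pr (fun ω => ∃ k ∈ (univ : Finset κ), P k ω) :=
    Pr_mono fun ω ⟨k, hk⟩ => ⟨k, Finset.mem_univ _, hk⟩
  refine h1.trans ((Pr_union _ _).trans ((Finset.sum_le_sum fun k _ => h k).trans (le_of_eq ?_)))
  rw [Finset.sum_const, Finset.card_univ, nsmul_eq_mul]

lemma Pr_zero_of {ι : Type} [Fintype ι] [DecidableEq ι] {P : (ι → Bool) → Prop}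
    (h : ∀ ω, ¬ P ω) : Pr P = 0 := by
  unfold Pr
  have : (fun ω : ι → Bool => @ite ℝ (P ω) (Classical.propDecidable _) 1 0) = fun _ => (0 : ℝ) := by
    funext ω
    rw [if_neg (h ω)]
  rw [this, Ex_const]

/-- The set given by coefficient data. -/
def dat {ρ y : ℕ} (e : Fin ρ → V) (c : Fin y → Fin ρ → ZMod 2) (j : Fin y) : V := ∑ i, c j i • e i

lemma Pr_not_Good1_aux (n ρ y : ℕ) (hV : Fintype.card V = 2 ^ n) :
    Pr (fun ω : V → Bool => ∃ Z : Finset V, Ind (BB ω) Z ∧ #Z ≤ y ∧ Sp Z ρ ∧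
      1001 * ((n + y) * ρ) < 1000 * #(Z + Z)) ≤ (1 / 2) ^ (((n + y) * ρ) / 1000) := by
  set w := (n + y) * ρ with hw
  have h1 : Pr (fun ω : V → Bool => ∃ Z : Finset V, Ind (BB ω) Z ∧ #Z ≤ y ∧ Sp Z ρ ∧
      1001 * w < 1000 * #(Z + Z)) ≤
      Pr (fun ω : V → Bool => ∃ k : (Fin ρ → V) × (Fin y → Fin ρ → ZMod 2),
        1001 * w < 1000 * #(univ.image (dat k.1 k.2) + univ.image (dat k.1 k.2)) ∧
        ∀ s ∈ (univ.image (dat k.1 k.2) + univ.image (dat k.1 k.2)).erase 0, ω s = false) := by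
    refine Pr_mono fun ω => ?_
    rintro ⟨Z, hI, hy, ⟨e, he⟩, hlt⟩
    have hne : Z.Nonempty := by
      rw [Finset.nonempty_iff_ne_empty]
      rintro rfl
      simp at hlt
    obtain ⟨z0, hz0⟩ := hne
    -- enumerate Z by Fin y
    have hsurj : ∃ g : Fin y → V, univ.image g = Z := by
      have hc : #Z ≤ y := hy
      let eqv := Z.equivFin
      refine ⟨fun i => if h : (i : ℕ) < #Z then (eqv.symm ⟨i, h⟩ : V) else z0, ?_⟩
      ext v
      simp only [Finset.mem_image, Finset.mem_univ, true_and]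
      constructor
      · rintro ⟨i, rfl⟩
        split_ifs with h
        · exact (eqv.symm ⟨i, h⟩).2
        · exact hz0
      · intro hv
        refine ⟨⟨(eqv ⟨v, hv⟩ : ℕ), lt_of_lt_of_le (eqv ⟨v, hv⟩).2 hc⟩, ?_⟩
        rw [dif_pos (eqv ⟨v, hv⟩).2]
        simp
    obtain ⟨g, hg⟩ := hsurj
    have hcoef : ∀ j : Fin y, ∃ c : Fin ρ → ZMod 2, ∑ i, c i • e i = g j := by
      intro j
      have : g j ∈ Z := by rw [← hg]; exact Finset.mem_image_of_mem _ (Finset.mem_univ _)
      exact Submodule.mem_span_range_iff_exists_fun (ZMod 2) |>.1 (he _ this)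
    choose c hc using hcoef
    have hdat : univ.image (dat e c) = Z := by
      rw [← hg]
      congr 1
      funext j
      exact hc j
    refine ⟨(e, c), ?_, ?_⟩
    · simp only; rw [hdat]; exact hlt
    · simp only
      rw [hdat]
      intro s hs
      obtain ⟨hs0, hs⟩ := Finset.mem_erase.1 hs
      obtain ⟨x, hx, x', hx', rfl⟩ := Finset.mem_add.1 hs
      refine hI x hx x' hx' ?_
      rintro rfl
      exact hs0 (add_self' x)
  refine h1.trans ((Pr_union_univ _ ((1 / 2) ^ (w + w / 1000)) ?_).trans (le_of_eq ?_))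
  · intro k
    set Z := univ.image (dat k.1 k.2) with hZ
    by_cases hlt : 1001 * w < 1000 * #(Z + Z)
    · refine (Pr_mono fun ω h => h.2).trans ?_
      rw [Pr_cyl]
      refine pow_le_pow_of_le_one (by norm_num) (by norm_num) ?_
      have := Finset.pred_card_le_card_erase (s := Z + Z) (a := 0)
      omega
    · rw [Pr_zero_of fun ω h => hlt h.1]
      positivity
  · have hcard : (Fintype.card ((Fin ρ → V) × (Fin y → Fin ρ → ZMod 2)) : ℝ) = 2 ^ w := by
      rw [Fintype.card_prod, Fintype.card_fun, Fintype.card_fun, Fintype.card_fun, hV, ZMod.card,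
        Fintype.card_fin, Fintype.card_fin, ← pow_mul, ← pow_mul, ← pow_add]
      push_cast
      congr 1
      rw [hw]; ring
    rw [hcard, pow_add, ← mul_assoc, ← mul_pow]
    norm_num

lemma Pr_not_Good1 (n : ℕ) (hV : Fintype.card V = 2 ^ n) :
    Pr (fun ω : V → Bool => ¬ Good1 n (BB ω)) ≤
      (n + 1) * (800000 * n + 1) * (1 / 2) ^ (n / 1000) := by
  have h1 : Pr (fun ω : V → Bool => ¬ Good1 n (BB ω)) ≤
      Pr (fun ω : V → Bool => ∃ k ∈ ((Finset.range (n + 1)).filter (fun ρ => 1 ≤ ρ)) ×ˢ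
        Finset.range (800000 * n + 1), ∃ Z : Finset V, Ind (BB ω) Z ∧ #Z ≤ k.2 ∧ Sp Z k.1 ∧
      1001 * ((n + k.2) * k.1) < 1000 * #(Z + Z)) := by
    refine Pr_mono fun ω hω => ?_
    unfold Good1 at hω
    push Not at hω
    obtain ⟨ρ, y, h1, h2, h3, h4, Z, hI, hy, hS, hlt⟩ := hω
    refine ⟨(ρ, y), Finset.mem_product.2 ⟨Finset.mem_filter.2 ⟨Finset.mem_range.2 (by simp only; omega), h1⟩,
      Finset.mem_range.2 ?_⟩, Z, hI, hy, hS, hlt⟩
    exact Nat.lt_succ_of_le h4
  refine h1.trans ((Pr_union _ _).trans ?_)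
  have h2 : ∀ k ∈ ((Finset.range (n + 1)).filter (fun ρ => 1 ≤ ρ)) ×ˢ Finset.range (800000 * n + 1),
      Pr (fun ω : V → Bool => ∃ Z : Finset V, Ind (BB ω) Z ∧ #Z ≤ k.2 ∧ Sp Z k.1 ∧
      1001 * ((n + k.2) * k.1) < 1000 * #(Z + Z)) ≤ (1 / 2) ^ (n / 1000) := by
    intro k hk
    refine (Pr_not_Good1_aux n k.1 k.2 hV).trans ?_
    refine pow_le_pow_of_le_one (by norm_num) (by norm_num) (Nat.div_le_div_right ?_)
    have hk1 : 1 ≤ k.1 := (Finset.mem_filter.1 (Finset.mem_product.1 hk).1).2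
    nlinarith
  refine (Finset.sum_le_sum h2).trans ?_
  rw [Finset.sum_const, nsmul_eq_mul, Finset.card_product, Finset.card_range]
  refine mul_le_mul_of_nonneg_right ?_ (by positivity)
  have h3 : #((Finset.range (n + 1)).filter (fun ρ => 1 ≤ ρ)) ≤ n + 1 := by
    have := Finset.card_filter_le (Finset.range (n + 1)) (fun ρ => 1 ≤ ρ)
    rwa [Finset.card_range] at this
  have h4 : (#((Finset.range (n + 1)).filter (fun ρ => 1 ≤ ρ)) : ℝ) ≤ n + 1 := by exact_mod_cast h3
  rw [Nat.cast_mul]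
  refine mul_le_mul h4 (le_of_eq ?_) (by positivity) (by positivity)
  push_cast
  ring

lemma Pr_not_Good2_aux (n j : ℕ) (hV : Fintype.card V = 2 ^ n) :
    Pr (fun ω : V → Bool => ∃ (e : Fin j → V) (g : Fin (4 * n) → V) (x : Fin (4 * j) → V),
    (∀ a, g a ∈ Submodule.span (ZMod 2) (Set.range e)) ∧
    Function.Injective (fun p : Fin (4 * n) × Fin (4 * j) => g p.1 + x p.2) ∧
    ∀ a b, BB ω (g a + x b)) ≤ (1 / 2) ^ (7 * (n * j)) := by
  have h1 : Pr (fun ω : V → Bool => ∃ (e : Fin j → V) (g : Fin (4 * n) → V) (x : Fin (4 * j) → V),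
    (∀ a, g a ∈ Submodule.span (ZMod 2) (Set.range e)) ∧
    Function.Injective (fun p : Fin (4 * n) × Fin (4 * j) => g p.1 + x p.2) ∧
    ∀ a b, BB ω (g a + x b)) ≤
    Pr (fun ω : V → Bool => ∃ k : (Fin j → V) × (Fin (4 * n) → Fin j → ZMod 2) × (Fin (4 * j) → V),
      Function.Injective (fun p : Fin (4 * n) × Fin (4 * j) => dat k.1 k.2.1 p.1 + k.2.2 p.2) ∧
      ∀ s ∈ univ.image (fun p : Fin (4 * n) × Fin (4 * j) => dat k.1 k.2.1 p.1 + k.2.2 p.2),
        ω s = false) := by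
    refine Pr_mono fun ω => ?_
    rintro ⟨e, g, x, hg, hinj, hB⟩
    have hcoef : ∀ a, ∃ c : Fin j → ZMod 2, ∑ i, c i • e i = g a := fun a =>
      Submodule.mem_span_range_iff_exists_fun (ZMod 2) |>.1 (hg a)
    choose c hc using hcoef
    have hdat : dat e c = g := by
      funext a; exact hc a
    refine ⟨(e, c, x), ?_, ?_⟩
    · simp only; rw [hdat]; exact hinj
    · simp only
      rw [hdat]
      intro s hs
      obtain ⟨p, _, rfl⟩ := Finset.mem_image.1 hs
      exact hB p.1 p.2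
  refine h1.trans ((Pr_union_univ _ ((1 / 2) ^ (16 * (n * j))) ?_).trans (le_of_eq ?_))
  · intro k
    by_cases hinj : Function.Injective
        (fun p : Fin (4 * n) × Fin (4 * j) => dat k.1 k.2.1 p.1 + k.2.2 p.2)
    · refine (Pr_mono fun ω h => h.2).trans ?_
      rw [Pr_cyl, Finset.card_image_of_injective _ hinj]
      rw [Finset.card_univ, Fintype.card_prod, Fintype.card_fin, Fintype.card_fin]
      refine le_of_eq ?_
      congr 1
      ring
    · rw [Pr_zero_of fun ω h => hinj h.1]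
      positivity
  · have hcard : (Fintype.card ((Fin j → V) × (Fin (4 * n) → Fin j → ZMod 2) × (Fin (4 * j) → V)) : ℝ) =
        2 ^ (9 * (n * j)) := by
      rw [Fintype.card_prod, Fintype.card_prod, Fintype.card_fun, Fintype.card_fun, Fintype.card_fun,
        Fintype.card_fun, hV, ZMod.card,
        Fintype.card_fin, Fintype.card_fin, Fintype.card_fin, ← pow_mul, ← pow_mul, ← pow_mul,
        ← pow_add, ← pow_add]
      push_cast
      congr 1
      ring
    have e1 : 16 * (n * j) = 9 * (n * j) + 7 * (n * j) := by ring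
    rw [hcard, e1, pow_add, ← mul_assoc, ← mul_pow]
    norm_num

lemma Pr_not_Good2 (n : ℕ) (hV : Fintype.card V = 2 ^ n) :
    Pr (fun ω : V → Bool => ¬ Good2 n (BB ω)) ≤ (n + 1) * (1 / 2) ^ n := by
  have h1 : Pr (fun ω : V → Bool => ¬ Good2 n (BB ω)) ≤
      Pr (fun ω : V → Bool => ∃ j ∈ (Finset.range (n + 1)).filter (fun j => 1 ≤ j),
        ∃ (e : Fin j → V) (g : Fin (4 * n) → V) (x : Fin (4 * j) → V),
    (∀ a, g a ∈ Submodule.span (ZMod 2) (Set.range e)) ∧
    Function.Injective (fun p : Fin (4 * n) × Fin (4 * j) => g p.1 + x p.2) ∧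
    ∀ a b, BB ω (g a + x b)) := by
    refine Pr_mono fun ω hω => ?_
    unfold Good2 at hω
    push Not at hω
    obtain ⟨j, h1, h2, e, g, x, h3, h4, h5⟩ := hω
    exact ⟨j, Finset.mem_filter.2 ⟨Finset.mem_range.2 (by omega), h1⟩, e, g, x, h3, h4, h5⟩
  refine h1.trans ((Pr_union _ _).trans ?_)
  have h2 : ∀ j ∈ (Finset.range (n + 1)).filter (fun j => 1 ≤ j),
      Pr (fun ω : V → Bool => ∃ (e : Fin j → V) (g : Fin (4 * n) → V) (x : Fin (4 * j) → V),
    (∀ a, g a ∈ Submodule.span (ZMod 2) (Set.range e)) ∧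
    Function.Injective (fun p : Fin (4 * n) × Fin (4 * j) => g p.1 + x p.2) ∧
    ∀ a b, BB ω (g a + x b)) ≤ (1 / 2) ^ n := by
    intro j hj
    refine (Pr_not_Good2_aux n j hV).trans ?_
    refine pow_le_pow_of_le_one (by norm_num) (by norm_num) ?_
    have hk1 : 1 ≤ j := (Finset.mem_filter.1 hj).2
    nlinarith
  refine (Finset.sum_le_sum h2).trans ?_
  rw [Finset.sum_const, nsmul_eq_mul]
  refine mul_le_mul_of_nonneg_right ?_ (by positivity)
  have h3 : #((Finset.range (n + 1)).filter (fun ρ => 1 ≤ ρ)) ≤ n + 1 := by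
    have := Finset.card_filter_le (Finset.range (n + 1)) (fun ρ => 1 ≤ ρ)
    rwa [Finset.card_range] at this
  exact_mod_cast h3

end H2CS
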