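import Mathlib
import Pool.Agent.H2CS.Det
import Pool.Agent.H2CS.Union
import Pool.Agent.H2CS.Moments

set_option autoImplicit false
set_option linter.unusedSectionVars false

open Finset Filter Topology
open scoped Pointwise

namespace H2CS

open H2BC

variable {V : Type} [AddCommGroup V] [Module (ZMod 2) V] [Fintype V] [DecidableEq V]

/-- The graph part. -/
lemma graph_part {m : ℕ} (A : Finset V) (ω : V → Bool) (hA : ∀ v, v ∈ A ↔ ω v = true)
    (K : Submodule (ZMod 2) V) (hK : K ∈ subs V m) (hc : Col true K ω)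
    (hind : ∀ Y : Finset V, Ind (BB ω) Y → (#Y : ℝ) ≤ (99 / 100) * 2 ^ m) :
    (101 / 100) * (Fintype.card V : ℝ) <
      ((SimpleGraph.fromRel (fun x y : V => x + y ∈ A)).chromaticNumber.toNat : ℝ) *
        ((SimpleGraph.fromRel (fun x y : V => x + y ∈ A)).cliqueNum : ℝ) := by
  classical
  set Γ := SimpleGraph.fromRel (fun x y : V => x + y ∈ A) with hΓ
  have hclique : Γ.IsClique (elts K : Set V) := by
    intro x hx y hy hxy
    rw [hΓ, SimpleGraph.fromRel_adj]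
    refine ⟨hxy, Or.inl ?_⟩
    rw [hA]
    refine hc _ (K.add_mem (mem_elts.1 hx) (mem_elts.1 hy)) ?_
    intro h
    apply hxy
    have := (eq_add_iff x y 0).1 h
    rw [add_zero] at this
    exact this.symm
  have hω : 2 ^ m ≤ Γ.cliqueNum := by
    have := hclique.card_le_cliqueNum
    rwa [card_elts, mem_subs.1 hK] at this
  have hcol : Γ.Colorable Γ.chromaticNumber.toNat :=
    SimpleGraph.colorable_chromaticNumber Γ.colorable_of_fintype
  set χ := Γ.chromaticNumber.toNat with hχ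
  obtain ⟨C⟩ := hcol
  have hcard : (Fintype.card V : ℝ) ≤ χ * ((99 / 100) * 2 ^ m) := by
    have h1 : #(univ : Finset V) = ∑ c : Fin χ, #(univ.filter (fun v => C v = c)) :=
      Finset.card_eq_sum_card_fiberwise (fun v _ => Finset.mem_coe.2 (Finset.mem_univ _))
    rw [← Finset.card_univ, h1]
    push_cast
    have h2 : ∀ c : Fin χ, (#(univ.filter (fun v => C v = c)) : ℝ) ≤ (99 / 100) * 2 ^ m := by
      intro c
      refine hind _ ?_
      intro x hx y hy hxy
      have hx' := (Finset.mem_filter.1 hx).2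
      have hy' := (Finset.mem_filter.1 hy).2
      by_contra hcon
      have hadj : Γ.Adj x y := by
        rw [hΓ, SimpleGraph.fromRel_adj]
        refine ⟨hxy, Or.inl ?_⟩
        rw [hA]
        unfold BB at hcon
        simpa using hcon
      exact C.valid hadj (hx'.trans hy'.symm)
    refine (Finset.sum_le_sum fun c _ => h2 c).trans (le_of_eq ?_)
    rw [Finset.sum_const, Finset.card_univ, Fintype.card_fin, nsmul_eq_mul]
  have hpos : (0 : ℝ) < Fintype.card V := by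
    have : 0 < Fintype.card V := Fintype.card_pos_iff.2 ⟨0⟩
    exact_mod_cast this
  have hω' : (2 : ℝ) ^ m ≤ Γ.cliqueNum := by exact_mod_cast hω
  have h3 : (χ : ℝ) * 2 ^ m ≤ χ * Γ.cliqueNum := mul_le_mul_of_nonneg_left hω' (by positivity)
  linarith

/-- Counting sets and colourings. -/
lemma Pr_finset (P : Finset V → Prop) :
    Pr (fun ω : V → Bool => P (univ.filter (fun v => ω v = true))) =
      (#(@Finset.filter (Finset V) P (Classical.decPred P) univ) : ℝ) / 2 ^ Fintype.card V := by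
  classical
  unfold Pr Ex
  congr 1
  let e : (V → Bool) ≃ Finset V :=
    { toFun := fun ω => univ.filter (fun v => ω v = true)
      invFun := fun A => fun v => decide (v ∈ A)
      left_inv := fun ω => by
        funext v
        simp
      right_inv := fun A => by
        ext v
        simp }
  have h1 : ∑ ω : V → Bool, (@ite ℝ (P (univ.filter (fun v => ω v = true))) (Classical.propDecidable _) 1 0) =
      ∑ A : Finset V, (@ite ℝ (P A) (Classical.propDecidable _) 1 0) :=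
    Fintype.sum_equiv e _ _ fun ω => rfl
  rw [h1, Finset.sum_boole]

/-- The error function tends to zero. -/
lemma err_small : ∃ n1 : ℕ, ∀ n ≥ n1, ((n : ℝ) + 1) * (800000 * n + 1) * (1 / 2) ^ (n / 1000) +
    (n + 1) * (1 / 2) ^ n ≤ 1 / 200 := by
  have h1 : Tendsto (fun a : ℕ => (16 * 10 ^ 11 : ℝ) * ((a : ℝ) ^ 2 * (1 / 2) ^ a)) atTop (𝓝 0) := by
    have := (tendsto_pow_const_mul_const_pow_of_abs_lt_one 2 (r := (1 / 2 : ℝ))
      (by rw [abs_of_pos (by norm_num)]; norm_num)).const_mul (16 * 10 ^ 11 : ℝ)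
    simpa using this
  have h2 : ∀ᶠ a : ℕ in atTop, (16 * 10 ^ 11 : ℝ) * ((a : ℝ) ^ 2 * (1 / 2) ^ a) < 1 / 400 :=
    h1.eventually_lt_const (by norm_num)
  obtain ⟨a0, ha0⟩ := eventually_atTop.1 h2
  refine ⟨1000 * a0, fun n hn => ?_⟩
  set a := n / 1000 with ha
  have haa : a0 ≤ a + 1 := by omega
  have h3 := ha0 (a + 1) haa
  have hna : n + 1 ≤ 1000 * (a + 1) := by omega
  have hnar : (n : ℝ) + 1 ≤ 1000 * ((a : ℝ) + 1) := by exact_mod_cast hna
  have h4 : (800000 : ℝ) * n + 1 ≤ 8 * 10 ^ 8 * ((a : ℝ) + 1) := by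
    have : (0 : ℝ) ≤ a := by positivity
    linarith
  have h5 : ((n : ℝ) + 1) * (800000 * n + 1) ≤ 8 * 10 ^ 11 * ((a : ℝ) + 1) ^ 2 := by
    calc ((n : ℝ) + 1) * (800000 * n + 1) ≤ (1000 * ((a : ℝ) + 1)) * (8 * 10 ^ 8 * ((a : ℝ) + 1)) :=
          mul_le_mul hnar h4 (by positivity) (by positivity)
      _ = _ := by ring
  have h6 : ((n : ℝ) + 1) * (800000 * n + 1) * (1 / 2) ^ a ≤ 1 / 400 := by
    calc ((n : ℝ) + 1) * (800000 * n + 1) * (1 / 2) ^ a ≤ 8 * 10 ^ 11 * ((a : ℝ) + 1) ^ 2 * (1 / 2) ^ a :=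
          mul_le_mul_of_nonneg_right h5 (by positivity)
      _ = (16 * 10 ^ 11 : ℝ) * (((a + 1 : ℕ) : ℝ) ^ 2 * (1 / 2) ^ (a + 1)) := by
          push_cast; rw [pow_succ (1 / 2 : ℝ)]; ring
      _ ≤ _ := h3.le
  have h7 : ((n : ℝ) + 1) * (1 / 2) ^ n ≤ ((n : ℝ) + 1) * (800000 * n + 1) * (1 / 2) ^ a := by
    have e1 : ((1 : ℝ) / 2) ^ n ≤ (1 / 2) ^ a :=
      pow_le_pow_of_le_one (by norm_num) (by norm_num) (Nat.div_le_self _ _)
    have e2 : (1 : ℝ) ≤ 800000 * n + 1 := by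
      have : (0 : ℝ) ≤ n := by positivity
      linarith
    calc ((n : ℝ) + 1) * (1 / 2) ^ n ≤ ((n : ℝ) + 1) * (1 / 2) ^ a :=
          mul_le_mul_of_nonneg_left e1 (by positivity)
      _ = ((n : ℝ) + 1) * 1 * (1 / 2) ^ a := by ring
      _ ≤ _ := by
        refine mul_le_mul_of_nonneg_right ?_ (by positivity)
        exact mul_le_mul_of_nonneg_left e2 (by positivity)
  linarith

/-- Powers of two dominate polynomials. -/
lemma pow_dom (C : ℝ) (k : ℕ) : ∀ᶠ m : ℕ in atTop, C * (m : ℝ) ^ k ≤ 2 ^ m := by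
  have h1 : Tendsto (fun m : ℕ => C * ((m : ℝ) ^ k / 2 ^ m)) atTop (𝓝 0) := by
    have := (tendsto_pow_const_div_const_pow_of_one_lt k (r := (2 : ℝ)) (by norm_num)).const_mul C
    simpa using this
  have h2 : ∀ᶠ m : ℕ in atTop, C * ((m : ℝ) ^ k / 2 ^ m) < 1 := h1.eventually_lt_const (by norm_num)
  filter_upwards [h2] with m hm
  rw [mul_div_assoc', div_lt_one (by positivity)] at hm
  exact hm.le

lemma two_p {p : ℕ} (hp : p.Prime) (hp2 : p ≠ 2) : ∃ q : ℕ, 2 * p * q + 4 = 2 ^ (2 * p) := by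
  have := Fact.mk hp
  have h1 : ((4 : ℕ) : ZMod p) ^ p = ((4 : ℕ) : ZMod p) := ZMod.pow_card _
  have h2 : 4 ≤ 4 ^ p := by
    calc 4 = 4 ^ 1 := (pow_one 4).symm
      _ ≤ 4 ^ p := Nat.pow_le_pow_right (by norm_num) hp.one_lt.le
  have h3 : p ∣ 4 ^ p - 4 := by
    rw [← CharP.cast_eq_zero_iff (ZMod p) p, Nat.cast_sub h2]
    push_cast
    push_cast at h1
    rw [h1, sub_self]
  have h4 : 2 ∣ 4 ^ p - 4 := by
    have : 2 ∣ 4 ^ p := (show 2 ∣ 4 by norm_num).trans (dvd_pow_self 4 hp.ne_zero)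
    exact Nat.dvd_sub this (by norm_num)
  have h5 : 2 * p ∣ 4 ^ p - 4 := by
    have hcop : Nat.Coprime 2 p := (Nat.coprime_primes Nat.prime_two hp).2 (Ne.symm hp2)
    exact hcop.mul_dvd_of_dvd_of_dvd h4 h3
  obtain ⟨q, hq⟩ := h5
  refine ⟨q, ?_⟩
  rw [← hq, pow_mul]
  have : (2 : ℕ) ^ 2 = 4 := by norm_num
  rw [this]
  omega

/-- The closeness condition. -/
def Close (V : Type) [AddCommGroup V] [Fintype V] (A : Finset V) : Prop :=
  |((SimpleGraph.fromRel (fun x y : V => x + y ∈ A)).chromaticNumber.toNat : ℝ) *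
    ((SimpleGraph.fromRel (fun x y : V => x + y ∈ A)).cliqueNum : ℝ) /
    (Fintype.card V : ℝ) - 1| ≤ 1 / 100

theorem exists_bad (N0 : ℕ) : ∃ n : ℕ, N0 ≤ Fintype.card (Fin n → ZMod 2) ∧
    Pr (fun ω : (Fin n → ZMod 2) → Bool =>
      Close (Fin n → ZMod 2) (univ.filter (fun v => ω v = true))) ≤ 1 - 3 / 200 := by
  obtain ⟨c0, hdet⟩ := det
  obtain ⟨n1, hn1⟩ := err_small
  obtain ⟨m0, hm0⟩ := eventually_atTop.1 (((pow_dom 10000 2).and (pow_dom (10 ^ 25) 4)).and
    (pow_dom 100 1))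
  -- choose a large prime
  obtain ⟨p, hp, hpp⟩ := Nat.exists_infinite_primes (2 * 10 ^ 14 + 1000 * c0 + n1 + m0 + N0 + 3)
  have hp2 : p ≠ 2 := by omega
  obtain ⟨q, hq⟩ := two_p hpp hp2
  obtain ⟨m, hm⟩ : ∃ m : ℕ, m = 2 * p := ⟨_, rfl⟩
  rw [← hm] at hq
  have hm14 : 2 * 10 ^ 14 ≤ m := by omega
  have hmc0 : 1000 * c0 ≤ m := by omega
  have hmn1 : n1 ≤ m := by omega
  have hmm0 : m0 ≤ m := by omega
  have hmN0 : N0 ≤ m := by omega
  have hm1 : 1 ≤ m := by omega
  have hmr : (1 : ℝ) ≤ m := by exact_mod_cast hm1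
  obtain ⟨⟨hd1, hd2⟩, hd3⟩ := hm0 m hmm0
  have hqr : (m : ℝ) * q + 4 = 2 ^ m := by exact_mod_cast hq
  -- q is large
  have hqbig : (10 : ℝ) ^ 24 * m ^ 3 ≤ q := by
    have e1 : (m : ℝ) * (10 ^ 24 * m ^ 3) ≤ m * q := by
      have e2 : (1 : ℝ) ≤ (m : ℝ) ^ 4 := one_le_pow₀ hmr
      have e3 : (m : ℝ) * (10 ^ 24 * m ^ 3) = 10 ^ 24 * m ^ 4 := by ring
      rw [e3]
      nlinarith
    exact le_of_mul_le_mul_left e1 (by linarith)
  have hm3 : (m : ℝ) ≤ (m : ℝ) ^ 3 := le_self_pow₀ hmr (by norm_num)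
  have hm23 : (m : ℝ) ^ 2 ≤ (m : ℝ) ^ 3 := pow_le_pow_right₀ hmr (by norm_num)
  have hmq2 : m ^ 2 + m ≤ q := by
    have : (m : ℝ) ^ 2 + m ≤ q := by nlinarith
    exact_mod_cast this
  have hmq : m ^ 2 ≤ q := by omega
  obtain ⟨n, hn⟩ : ∃ n : ℕ, n = m + q := ⟨_, rfl⟩
  have hnr : (n : ℝ) = m + q := by rw [hn]; push_cast; ring
  have hcard : Fintype.card (Fin n → ZMod 2) = 2 ^ n := by
    rw [Fintype.card_fun, ZMod.card, Fintype.card_fin]
  have hfin : Module.finrank (ZMod 2) (Fin n → ZMod 2) = n := by simp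
  refine ⟨n, ?_, ?_⟩
  · rw [hcard]
    have : n < 2 ^ n := Nat.lt_two_pow_self
    omega
  -- numerical conditions
  have hnm : (n : ℝ) * m ≤ (1001 / 1000) * 2 ^ m := by
    rw [hnr]
    nlinarith
  have hbig : 10 ^ 24 * m ≤ n := by
    have : (10 : ℝ) ^ 24 * m ≤ n := by
      rw [hnr]
      nlinarith
    exact_mod_cast this
  have hsmall : (m : ℝ) * (1 / 2) ^ (q - m ^ 2) ≤ 1 / 100 := by
    have e1 : m ≤ q - m ^ 2 := by omega
    have e2 : ((1 : ℝ) / 2) ^ (q - m ^ 2) ≤ (1 / 2) ^ m :=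
      pow_le_pow_of_le_one (by norm_num) (by norm_num) e1
    have e3 : (m : ℝ) * (1 / 2) ^ m ≤ 1 / 100 := by
      rw [one_div, inv_pow, ← div_eq_mul_inv, div_le_iff₀ (by positivity)]
      rw [pow_one] at hd3
      linarith
    exact (mul_le_mul_of_nonneg_left e2 (by positivity)).trans e3
  have hV' : Module.finrank (ZMod 2) (Fin n → ZMod 2) = m + q := by rw [hfin, hn]
  have hP := main_prob (V := Fin n → ZMod 2) hm1 hV' hq hmq hsmall
  have hG1 := Pr_not_Good1 (V := Fin n → ZMod 2) n hcard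
  have hG2 := Pr_not_Good2 (V := Fin n → ZMod 2) n hcard
  have herr := hn1 n (by omega)
  -- on the good event the set is not close
  have hincl : Pr (fun ω : (Fin n → ZMod 2) → Bool =>
      (∃ K ∈ subs (Fin n → ZMod 2) m, Col true K ω) ∧ ¬ ∃ K ∈ subs (Fin n → ZMod 2) m, Col false K ω) ≤
      Pr (fun ω : (Fin n → ZMod 2) → Bool =>
        ¬ Close (Fin n → ZMod 2) (univ.filter (fun v => ω v = true)) ∨
        (¬ Good1 n (BB ω) ∨ ¬ Good2 n (BB ω))) := by
    refine Pr_mono fun ω => ?_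
    rintro ⟨⟨K, hK, hc⟩, hno⟩
    by_contra hcon
    push Not at hcon
    obtain ⟨hclose, hg1, hg2⟩ := hcon
    have hind : ∀ Y : Finset (Fin n → ZMod 2), Ind (BB ω) Y → (#Y : ℝ) ≤ (99 / 100) * 2 ^ m := by
      intro Y hY
      by_contra hbigY
      push Not at hbigY
      -- a subset of the right size
      obtain ⟨k, hk⟩ : ∃ k : ℕ, k = ⌈(99 / 100) * (2 : ℝ) ^ m⌉₊ := ⟨_, rfl⟩
      have hk1 : (99 / 100) * (2 : ℝ) ^ m ≤ k := by rw [hk]; exact Nat.le_ceil _
      have hk2 : (k : ℝ) < 2 ^ m := by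
        have e1 : (k : ℝ) < (99 / 100) * (2 : ℝ) ^ m + 1 := by
          rw [hk]; exact Nat.ceil_lt_add_one (by positivity)
        have e2 : (100 : ℝ) ≤ 2 ^ m := by
          rw [pow_one] at hd3
          nlinarith
        linarith
      have hkY : k ≤ #Y := by
        rw [hk]
        exact Nat.ceil_le.2 hbigY.le
      obtain ⟨X, hXY, hXc⟩ := Finset.exists_subset_card_eq hkY
      obtain ⟨K', hK'1, hK'2⟩ := hdet m n hm14 hmc0 hnm hbig (Fin n → ZMod 2) hfin (BB ω) hg1 hg2 X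
        (hY.subset hXY) (by rw [hXc]; exact hk1) (by rw [hXc]; exact hk2)
      exact hno ⟨K', mem_subs.2 hK'1, hK'2⟩
    have hgp := graph_part (univ.filter (fun v => ω v = true)) ω (fun v => by simp) K hK hc hind
    unfold Close at hclose
    have hpos : (0 : ℝ) < Fintype.card (Fin n → ZMod 2) := by
      rw [hcard]; positivity
    have h1 := (abs_le.1 hclose).2
    have h2 : (101 / 100 : ℝ) < ((SimpleGraph.fromRel (fun x y : (Fin n → ZMod 2) => x + y ∈
        univ.filter (fun v => ω v = true))).chromaticNumber.toNat : ℝ) *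
        ((SimpleGraph.fromRel (fun x y : (Fin n → ZMod 2) => x + y ∈
        univ.filter (fun v => ω v = true))).cliqueNum : ℝ) / (Fintype.card (Fin n → ZMod 2) : ℝ) := by
      rw [lt_div_iff₀ hpos]
      exact hgp
    linarith
  have h1 := Pr_or (fun ω : (Fin n → ZMod 2) → Bool =>
        ¬ Close (Fin n → ZMod 2) (univ.filter (fun v => ω v = true)))
        (fun ω => ¬ Good1 n (BB ω) ∨ ¬ Good2 n (BB ω))
  have h2 := Pr_or (fun ω : (Fin n → ZMod 2) → Bool => ¬ Good1 n (BB ω)) (fun ω => ¬ Good2 n (BB ω))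
  have h3 := Pr_not (fun ω : (Fin n → ZMod 2) → Bool =>
        Close (Fin n → ZMod 2) (univ.filter (fun v => ω v = true)))
  linarith

end H2CS
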